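import Pool.Agent.H30.PI.Spec

set_option autoImplicit false

namespace Pool.Agent.H30.PI

private theorem isConj_quot {G H : Type} [Group G] [Group H] (f : G →* H) (hf : Function.Surjective f)
    (h : ∀ x : G, IsConj x (x ^ 3)) (y : H) : IsConj y (y ^ 3) := by
  obtain ⟨x, rfl⟩ := hf y
  have := f.map_isConj (h x)
  simpa using this

theorem sfin (hI : SSpan) (hM : SPrime) (hN : SSub) (hO : SRes) (hQ : SQuo) : SFin := by
  intro d m
  obtain ⟨r, hr⟩ := hI d m
  obtain ⟨b, hb⟩ := hM r
  refine ⟨b.factorial ^ (b.factorial ^ d), ?_⟩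
  intro G B _ _ _ φ s hp hc hs hinj hid
  obtain ⟨g, hg⟩ := hr G B φ s hs hc hid
  apply hN d b G s hs
  intro x hx
  -- the element φ x - 1 in the span
  set A : AddSubgroup B := AddSubgroup.closure (Set.range φ) with hA
  have hmem : ∀ y : G, φ y ∈ A := fun y => AddSubgroup.subset_closure ⟨y, rfl⟩
  let gA : Fin r → A := fun i => ⟨φ (g i), hmem _⟩
  have hgA : AddSubgroup.closure (Set.range gA) = ⊤ := by
    have h1 : (AddSubgroup.closure (Set.range gA)).map A.subtype = A := by
      rw [AddMonoidHom.map_closure, ← Set.range_comp]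
      have : (A.subtype ∘ gA) = fun i => φ (g i) := rfl
      rw [this, ← hg]
    rw [eq_top_iff]
    intro y _
    have hy : (y : B) ∈ (AddSubgroup.closure (Set.range gA)).map A.subtype := by
      rw [h1]; exact y.2
    obtain ⟨z, hz, hzy⟩ := hy
    have : z = y := Subtype.ext hzy
    rwa [← this]
  have hxne : (⟨φ x, hmem x⟩ - ⟨φ 1, hmem 1⟩ : A) ≠ 0 := by
    intro h0
    have h1 : φ x - φ 1 = 0 := congrArg Subtype.val h0
    exact hx (hinj (sub_eq_zero.mp h1))
  obtain ⟨p, k, hpp, hpk⟩ := hO r A gA hgA _ hxne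
  obtain ⟨C, iC, ψ, hn, hgen, hker⟩ := hQ r (p ^ k) G B φ g hg
  have hpk0 : (p : C) ^ k = 0 := by
    have : ((p ^ k : ℕ) : C) = 0 := hn
    simpa using this
  -- the kernel
  let θ : G →* Cˣ := ψ.toHomUnits
  have hθ : ∀ y : G, ((θ y : Cˣ) : C) = ψ y := fun y => rfl
  let H := θ.range
  let N := θ.ker
  have hxN : x ∉ N := by
    intro hxN
    have h1 : ψ x = 1 := by
      have : θ x = 1 := hxN
      rw [← hθ, this]; rfl
    obtain ⟨y, hy, hyx⟩ := hker x h1
    apply hpk ⟨y, hy⟩
    apply Subtype.ext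
    show φ x - φ 1 = ((p ^ k) • y : B)
    rw [map_one]
    exact hyx
  refine ⟨N, inferInstance, ?_, hxN⟩
  have hidx : N.index = Nat.card H := Subgroup.index_ker θ
  rw [hidx]
  have hfin : Finite H := by
    have : Function.Surjective θ.rangeRestrict := MonoidHom.rangeRestrict_surjective θ
    exact Finite.of_surjective _ this
  have hpH : IsPGroup 2 H := hp.of_surjective θ.rangeRestrict (MonoidHom.rangeRestrict_surjective θ)
  have hcH : ∀ y : H, IsConj y (y ^ 3) :=
    isConj_quot θ.rangeRestrict (MonoidHom.rangeRestrict_surjective θ) hc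
  refine hb H C p k hpH hcH hpp hpk0 ⟨_, hgen⟩ ⟨(Units.coeHom C).comp H.subtype, ?_⟩
  intro y z hyz
  apply Subtype.ext
  apply Units.ext
  exact hyz

end Pool.Agent.H30.PI
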