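import Pool.Agent.H30.PI.Law
import Pool.Agent.H64.RE.ExpB

set_option autoImplicit false

/-! # The exponent theorem with laws -/

namespace Pool.Agent.H30.PI.ExpL

open Subgroup
open Pool.Agent.H64.RE (FacE FSubE IdenU fac_exp facE_quot fsubE_sub conj_itU small_ringU iden_end)

universe u v

/-- The condition on a factor. -/
def FacL (W : Finset (FreeGroup ℕ)) (r m : ℕ) (Q : Type v) [Group Q] : Prop :=
  (∃ w ∈ W, ∀ f : FreeGroup ℕ →* Q, f w = 1) ∨ FacE r m Q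

theorem facL_exp (e r m : ℕ) (he : 2 ≤ e) (W : Finset (FreeGroup ℕ))
    (hW : ∀ w ∈ W, w ∉ derivedSeries (FreeGroup ℕ) 2) : ∃ f : ℕ, 0 < f ∧ ∀ (Q : Type v) [Group Q],
    (∀ x : Q, IsConj x (x ^ e)) → FacL W r m Q → ∀ x : Q, x ^ f = 1 := by
  classical
  obtain ⟨f1, hf1, h1⟩ := fac_exp.{v} e r m he
  choose N hN0 hN using fun w : W => law_exp.{v} e he (w : FreeGroup ℕ) (hW w w.2)
  refine ⟨f1 * ∏ w, N w, Nat.mul_pos hf1 (Finset.prod_pos fun w _ => hN0 w), ?_⟩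
  intro Q _ h3 hfac x
  rcases hfac with ⟨w, hw, hl⟩ | hfac
  · have h2 := hN ⟨w, hw⟩ Q h3 hl x
    obtain ⟨c, hc⟩ := Finset.dvd_prod_of_mem N (Finset.mem_univ (⟨w, hw⟩ : W))
    rw [hc]
    have h4 : f1 * (N ⟨w, hw⟩ * c) = N ⟨w, hw⟩ * (f1 * c) := by ring
    rw [h4, pow_mul, h2, one_pow]
  · rw [pow_mul, h1 Q h3 hfac x, one_pow]

/-- The condition on the factor `K / H`, `H` normal in `K`. -/
def FSubL (W : Finset (FreeGroup ℕ)) (G : Type v) [Group G] (r m : ℕ) (H K : Subgroup G) : Prop :=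
  (H.subgroupOf K).Normal ∧ ((∃ w ∈ W, ∀ f : FreeGroup ℕ →* K, (f w : G) ∈ H) ∨
    FSubE G r m H K)

theorem fsubL_sub (W : Finset (FreeGroup ℕ)) {G : Type v} [Group G] (r m : ℕ) (H K N : Subgroup G)
    (hHK : H ≤ K) (hKN : K ≤ N) (h : FSubL W G r m H K) :
    FSubL W N r m (H.subgroupOf N) (K.subgroupOf N) := by
  obtain ⟨hn, h⟩ := h
  refine ⟨?_, ?_⟩
  · constructor
    rintro ⟨⟨x, hxN⟩, hxK⟩ hx ⟨⟨g, hgN⟩, hgK⟩
    exact hn.conj_mem ⟨x, hxK⟩ hx ⟨g, hgK⟩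
  rcases h with ⟨w, hw, h⟩ | h
  · left
    let ι : K.subgroupOf N →* K := (Subgroup.subgroupOfEquivOfLe hKN).toMonoidHom
    have hι : ∀ x : K.subgroupOf N, ((ι x : K) : G) = ((x : N) : G) := fun x => rfl
    refine ⟨w, hw, fun f => ?_⟩
    have h1 := h (ι.comp f)
    rw [MonoidHom.comp_apply, hι] at h1
    exact h1
  · right
    exact fsubE_sub r m H K N hHK hKN h

theorem facL_quot (W : Finset (FreeGroup ℕ)) {G : Type v} [Group G] (r m : ℕ) (H : Subgroup G)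
    [hHn : H.Normal] (h : FSubL W G r m H ⊤) : FacL W r m (G ⧸ H) := by
  obtain ⟨-, h⟩ := h
  rcases h with ⟨w, hw, h⟩ | ⟨-, h⟩
  · left
    refine ⟨w, hw, fun f => ?_⟩
    choose z hz using fun i => QuotientGroup.mk'_surjective H (f (FreeGroup.of i))
    let g : FreeGroup ℕ →* (⊤ : Subgroup G) := FreeGroup.lift fun i => ⟨z i, mem_top _⟩
    have hg : ((QuotientGroup.mk' H).comp (Subgroup.subtype ⊤)).comp g = f := by
      apply FreeGroup.ext_hom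
      intro i
      rw [MonoidHom.comp_apply, MonoidHom.comp_apply, FreeGroup.lift_apply_of]
      exact hz i
    rw [← hg]
    exact (QuotientGroup.eq_one_iff _).2 (h g)
  · exact Or.inr (facE_quot r m H h)

/-- The theorem. -/
theorem expL_series (W : Finset (FreeGroup ℕ)) (hW : ∀ w ∈ W, w ∉ derivedSeries (FreeGroup ℕ) 2)
    (r m k : ℕ) : ∀ e : ℕ, 2 ≤ e → ∃ F : ℕ, 0 < F ∧ ∀ (G : Type v) [Group G],
    (∀ x : G, IsConj x (x ^ e)) → ∀ N : ℕ → Subgroup G, N 0 = ⊥ → N k = ⊤ →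
    (∀ i < k, N i ≤ N (i + 1) ∧ FSubL W G r m (N i) (N (i + 1))) → ∀ x : G, x ^ F = 1 := by
  induction k with
  | zero =>
    intro e _
    refine ⟨1, Nat.one_pos, ?_⟩
    intro G _ _ N h0 h1 _ x
    rw [h0] at h1
    have h2 : x ∈ (⊥ : Subgroup G) := by rw [h1]; exact mem_top x
    rw [pow_one]
    exact Subgroup.mem_bot.1 h2
  | succ k ih =>
    intro e he
    obtain ⟨f, hf0, hf⟩ := facL_exp.{v} e r m he W hW
    obtain ⟨F, hF0, hF⟩ := ih (e ^ f) (by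
      calc 2 ≤ e ^ 1 := by rw [pow_one]; exact he
        _ ≤ e ^ f := Nat.pow_le_pow_right (by omega) hf0)
    refine ⟨f * F, Nat.mul_pos hf0 hF0, ?_⟩
    intro G _ h3 N hN0 hNk hN
    classical
    obtain ⟨-, hfac⟩ := hN k (Nat.lt_succ_self k)
    rw [hNk] at hfac
    have hnorm := hfac.1
    have hNn : (N k).Normal := by
      constructor
      intro x hx g
      exact hnorm.conj_mem ⟨x, mem_top x⟩ hx ⟨g, mem_top g⟩
    have hle : ∀ i j, i ≤ j → j ≤ k → N i ≤ N j := by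
      intro i j hij
      induction j, hij using Nat.le_induction with
      | base => intro _; exact le_rfl
      | succ j hij ihj =>
        intro hj
        exact (ihj (by omega)).trans (hN j (by omega)).1
    have hpow : ∀ x : G, x ^ f ∈ N k := by
      intro x
      have h1 := hf (G ⧸ N k) (fun y => by
        obtain ⟨y, rfl⟩ := QuotientGroup.mk'_surjective (N k) y
        rw [← map_pow]
        exact MonoidHom.map_isConj (QuotientGroup.mk' (N k)) (h3 y))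
        (facL_quot W r m (N k) hfac) (QuotientGroup.mk' (N k) x)
      rw [← map_pow] at h1
      exact (QuotientGroup.eq_one_iff _).1 h1
    intro x
    have h4 := hF (N k) ?_ (fun i => (N i).subgroupOf (N k)) ?_ ?_ ?_ ⟨x ^ f, hpow x⟩
    · have h5 := congrArg Subtype.val h4
      rw [pow_mul]
      exact h5
    · intro y
      obtain ⟨t, ht⟩ := isConj_iff.1 (h3 (y : G))
      refine isConj_iff.2 ⟨⟨t ^ f, hpow t⟩, Subtype.ext ?_⟩
      show t ^ f * (y : G) * (t ^ f)⁻¹ = (y : G) ^ (e ^ f)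
      exact conj_itU ht _
    · show (N 0).subgroupOf (N k) = ⊥
      rw [hN0, Subgroup.bot_subgroupOf]
    · show (N k).subgroupOf (N k) = ⊤
      rw [Subgroup.subgroupOf_self]
    · intro i hi
      obtain ⟨h1, h2⟩ := hN i (by omega)
      exact ⟨Subgroup.comap_mono h1, fsubL_sub W r m _ _ _ h1 (hle _ _ (by omega) le_rfl) h2⟩

/-- The final form. -/
theorem exponentL (e r n m k : ℕ) (he : 2 ≤ e) (W : Finset (FreeGroup ℕ))
    (hW : ∀ w ∈ W, w ∉ derivedSeries (FreeGroup ℕ) 2) :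
    ∃ F : ℕ, 0 < F ∧ ∀ (G : Type v) [Group G], (∀ x : G, IsConj x (x ^ e)) →
      ∀ N : ℕ → Subgroup G, N 0 = ⊥ → N k = ⊤ →
      (∀ i < k, N i ≤ N (i + 1) ∧ ((N i).subgroupOf (N (i + 1))).Normal ∧
        ((∃ w ∈ W, ∀ f : FreeGroup ℕ →* N (i + 1), (f w : G) ∈ N i) ∨
          ((N i).relIndex (N (i + 1)) ≠ 0 ∧ (∀ x ∈ N (i + 1), ∃ l : ℕ, x ^ (2 ^ l) ∈ N i) ∧
            ∀ L : Subgroup G, N i ≤ L → L ≤ N (i + 1) →
              ∃ s : Finset G, s.card ≤ r ∧ L = N i ⊔ Subgroup.closure (s : Set G)) ∨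
          (∃ (R M : Type u) (_ : CommRing R) (_ : AddCommGroup M) (_ : Module R M) (v : Fin n → M)
            (φ : N (i + 1) →* Module.End R M), Submodule.span R (Set.range v) = ⊤ ∧
              ∀ x, φ x = 1 ↔ (x : G) ∈ N i) ∨
          (∃ (A : Type u) (_ : Ring A) (φ : N (i + 1) →* A) (j : ℕ) (a : Equiv.Perm (Fin j) → ℤ),
            j ≤ m ∧ a 1 = 1 ∧
            (∀ y : Fin j → N (i + 1), ∑ σ, a σ • φ (List.ofFn fun l => y (σ l)).prod = 0) ∧
            ∀ x, φ x = 1 ↔ (x : G) ∈ N i))) →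
      ∀ x : G, x ^ F = 1 := by
  obtain ⟨F, hF0, hF⟩ := expL_series W hW r (max m (n * n + 1)) k e he
  refine ⟨F, hF0, fun G _ h3 N h0 hk hN => hF G h3 N h0 hk fun i hi => ?_⟩
  obtain ⟨h1, h2, h4⟩ := hN i hi
  refine ⟨h1, h2, ?_⟩
  rcases h4 with h | h | ⟨R, M, _, _, _, v, φ, hv, hφ⟩ | ⟨A, hA, φ, j, a, hj, ha1, ha2, hφ⟩
  · exact Or.inl h
  · exact Or.inr ⟨h2, Or.inr (Or.inl h)⟩
  · obtain ⟨B, hB, ψ, hψ1, hψ2⟩ := small_ringU φ (n * n + 1) (iden_end n v hv φ)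
    exact Or.inr ⟨h2, Or.inr (Or.inr ⟨n * n + 1, le_max_right _ _, B, hB, ψ, hψ1,
      fun x => (hψ2 x).trans (hφ x)⟩)⟩
  · obtain ⟨B, hB, ψ, hψ1, hψ2⟩ := small_ringU φ j ⟨a, ha1, ha2⟩
    exact Or.inr ⟨h2, Or.inr (Or.inr ⟨j, hj.trans (le_max_left _ _), B, hB, ψ, hψ1,
      fun x => (hψ2 x).trans (hφ x)⟩)⟩

end Pool.Agent.H30.PI.ExpL
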