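import Pool.Agent.H30.PI.Spec

set_option autoImplicit false

/-! # RAT2-PI, part H: products of the elements `x ^ i * t` and their exponents -/

namespace Pool.Agent.H30.PI

/-- A monotone permutation of `Fin m` is the identity. -/
private theorem exsMono {m : ℕ} (σ : Equiv.Perm (Fin m)) (h : Monotone σ) : σ = 1 := by
  have hs : StrictMono σ := h.strictMono_of_injective σ.injective
  ext i
  have : σ i = i := by
    have h1 : ∀ (k : ℕ) (i : Fin m), (i : ℕ) = k → i ≤ σ i := by
      intro k i _
      exact hs.le_apply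
    have h2 : StrictMono σ.symm := by
      intro a b hab
      by_contra hcon
      have hcon := not_lt.1 hcon
      have h3 := h hcon
      rw [Equiv.apply_symm_apply, Equiv.apply_symm_apply] at h3
      exact absurd hab (not_lt.mpr h3)
    have h4 : σ i ≤ σ.symm (σ i) := h2.le_apply
    rw [Equiv.symm_apply_apply] at h4
    exact le_antisymm h4 (h1 _ i rfl)
  rw [this]
  rfl

private theorem exsLt (m : ℕ) (σ : Equiv.Perm (Fin m)) (hσ : σ ≠ 1) : ex m σ < ex m 1 := by
  have hm : Monovary (fun i : Fin m => 3 ^ (i : ℕ)) (fun i : Fin m => (i : ℕ)) := by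
    intro i j hij
    exact Nat.pow_le_pow_right (by norm_num) (le_of_lt hij)
  have h := hm.sum_mul_comp_perm_lt_sum_mul_iff (σ := σ)
  have h' : ¬ Monovary (fun i : Fin m => 3 ^ (i : ℕ)) ((fun i : Fin m => (i : ℕ)) ∘ σ) := by
    intro hv
    apply hσ
    apply exsMono
    intro a b hab
    by_contra hcon
    have hcon := not_le.1 hcon
    have h1 := hv (i := b) (j := a) (by simpa using hcon)
    have h2 : (b : ℕ) ≤ (a : ℕ) := (Nat.pow_le_pow_iff_right (by norm_num)).1 h1
    have h3 : a = b := le_antisymm hab h2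
    rw [h3] at hcon
    exact lt_irrefl _ hcon
  have h3 := h.2 h'
  simpa [ex] using h3

private theorem exsComm {G : Type} [Group G] (x t : G) (h : t * x * t⁻¹ = x ^ 3) (n : ℕ) :
    t * x ^ n = x ^ (3 * n) * t := by
  have h1 : t * x ^ n * t⁻¹ = x ^ (3 * n) := by
    rw [pow_mul, ← h, conj_pow]
  rw [← h1]
  group

private theorem exsProd {G : Type} [Group G] (x t : G) (h : t * x * t⁻¹ = x ^ 3) :
    ∀ (m : ℕ) (c : Fin m → ℕ),
      (List.ofFn fun i => x ^ c i * t).prod = x ^ (∑ i : Fin m, 3 ^ (i : ℕ) * c i) * t ^ m := by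
  intro m
  induction m with
  | zero => intro c; simp
  | succ m ih =>
    intro c
    rw [List.ofFn_succ, List.prod_cons, ih (fun i => c i.succ), Fin.sum_univ_succ]
    have h1 : (∑ i : Fin m, 3 ^ ((i.succ : Fin (m + 1)) : ℕ) * c i.succ)
        = 3 * ∑ i : Fin m, 3 ^ (i : ℕ) * c i.succ := by
      rw [Finset.mul_sum]
      apply Finset.sum_congr rfl
      intro i _
      rw [Fin.val_succ, pow_succ]
      ring
    rw [h1, mul_assoc, ← mul_assoc t, exsComm x t h, pow_succ' t m]
    simp only [Fin.val_zero, pow_zero, one_mul, pow_add, mul_assoc]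

/-- H. Products of the elements `x ^ i * t` and their exponents. -/
theorem sex : SEx := by
  intro m
  refine ⟨fun σ hσ => exsLt m σ hσ, ?_⟩
  intro G _ x t h σ
  exact exsProd x t h m (fun i => ((σ i : Fin m) : ℕ))

end Pool.Agent.H30.PI
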