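import Pool.Agent.H30.PI.Spec

set_option autoImplicit false

namespace Pool.Agent.H30.PI

theorem skonX : SKon := by
  classical
  intro d P hP hlong
  let Good : List (Fin d) → Prop := fun u => ∀ n, ∃ w, n ≤ w.length ∧ P (u ++ w)
  have h0 : Good [] := fun n => by
    obtain ⟨w, hw, hPw⟩ := hlong n
    exact ⟨w, hw, by simpa using hPw⟩
  have hstep : ∀ u, Good u → ∃ a, Good (u ++ [a]) := by
    intro u hu
    by_contra hcon
    have hcon' : ∀ a, ∃ n, ∀ w : List (Fin d), n ≤ w.length → ¬ P ((u ++ [a]) ++ w) := by
      intro a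
      by_contra h
      apply hcon
      refine ⟨a, fun n => ?_⟩
      by_contra h2
      apply h
      refine ⟨n, fun w hw hPw => h2 ⟨w, hw, hPw⟩⟩
    choose N hN using hcon'
    obtain ⟨w, hw, hPw⟩ := hu (Finset.univ.sup N + 1)
    cases w with
    | nil => simp at hw
    | cons a w =>
      apply hN a w
      · have h1 : N a ≤ Finset.univ.sup N := Finset.le_sup (Finset.mem_univ a)
        simp only [List.length_cons] at hw
        omega
      · simpa using hPw
  obtain ⟨a0, _⟩ := hstep [] h0
  have : Nonempty (Fin d) := ⟨a0⟩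
  choose! next hnext using hstep
  let W : ℕ → List (Fin d) := fun n => Nat.rec [] (fun _ u => u ++ [next u]) n
  have hWs : ∀ n, W (n + 1) = W n ++ [next (W n)] := fun n => rfl
  have hWg : ∀ n, Good (W n) := by
    intro n
    induction n with
    | zero => exact h0
    | succ n ih => rw [hWs]; exact hnext _ ih
  refine ⟨fun n => next (W n), fun n => ?_⟩
  have hW : (List.range n).map (fun n => next (W n)) = W n := by
    induction n with
    | zero => rfl
    | succ n ih => rw [List.range_succ, List.map_append, ih, hWs]; rfl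
  rw [hW]
  obtain ⟨w, _, hw⟩ := hWg n 0
  exact hP _ _ hw

end Pool.Agent.H30.PI
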