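import Pool.Agent.H30.PI.Spec

set_option autoImplicit false

namespace Pool.Agent.H30.PI

universe u

/-- A ring of any universe may be replaced by a quotient of the integral group ring. -/
theorem exists_small {G : Type} [Group G] {B : Type u} [Ring B] (φ : G →* B)
    (hinj : Function.Injective φ) (m : ℕ)
    (hid : ∃ a : Equiv.Perm (Fin m) → ℤ, a 1 = 1 ∧
      ∀ y : Fin m → G, ∑ σ, a σ • (List.ofFn fun i => φ (y (σ i))).prod = 0) :
    ∃ (B' : Type) (_ : Ring B') (φ' : G →* B'), Function.Injective φ' ∧ Iden m φ' := by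
  let F : MonoidAlgebra ℤ G →+* B := (MonoidAlgebra.lift ℤ B G φ : MonoidAlgebra ℤ G →ₐ[ℤ] B).toRingHom
  have hF : ∀ g : G, F (MonoidAlgebra.of ℤ G g) = φ g := by
    intro g
    show (MonoidAlgebra.lift ℤ B G φ) (MonoidAlgebra.of ℤ G g) = φ g
    simp
  let q : MonoidAlgebra ℤ G →+* (MonoidAlgebra ℤ G ⧸ RingHom.ker F) := Ideal.Quotient.mk _
  have hq : ∀ z : MonoidAlgebra ℤ G, q z = 0 ↔ F z = 0 := by
    intro z
    rw [Ideal.Quotient.eq_zero_iff_mem, RingHom.mem_ker]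
  refine ⟨MonoidAlgebra ℤ G ⧸ RingHom.ker F, inferInstance,
    (q : MonoidAlgebra ℤ G →* (MonoidAlgebra ℤ G ⧸ RingHom.ker F)).comp (MonoidAlgebra.of ℤ G), ?_, ?_⟩
  · intro g h hgh
    have h1 : q (MonoidAlgebra.of ℤ G g) = q (MonoidAlgebra.of ℤ G h) := hgh
    have h2 : q (MonoidAlgebra.of ℤ G g - MonoidAlgebra.of ℤ G h) = 0 := by
      rw [map_sub, h1, sub_self]
    rw [hq, map_sub, hF, hF, sub_eq_zero] at h2
    exact hinj h2
  · obtain ⟨a, ha, hy⟩ := hid
    refine ⟨a, ha, fun y => ?_⟩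
    have h1 : (∑ σ, a σ • q (MonoidAlgebra.of ℤ G (List.ofFn fun i => y (σ i)).prod)) =
        q (∑ σ, a σ • MonoidAlgebra.of ℤ G (List.ofFn fun i => y (σ i)).prod) := by
      rw [map_sum]
      refine Finset.sum_congr rfl fun σ _ => ?_
      rw [map_zsmul]
    show (∑ σ, a σ • q (MonoidAlgebra.of ℤ G (List.ofFn fun i => y (σ i)).prod)) = 0
    rw [h1, hq, map_sum, ← hy y]
    refine Finset.sum_congr rfl fun σ _ => ?_
    rw [map_zsmul, hF, map_list_prod, List.map_ofFn]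
    rfl

end Pool.Agent.H30.PI
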