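import Mathlib

set_option autoImplicit false

namespace Pool.Agent.H30.PI

universe u v

/-- An algebra over a commutative ring `R` which is generated by `n` elements as an `R`-module satisfies the
standard identity of every degree `m > n`. -/
theorem standard_identity {R : Type u} {B : Type v} [CommRing R] [Ring B] [Algebra R B] {n m : ℕ}
    (e : Fin n → B) (he : Submodule.span R (Set.range e) = ⊤) (hnm : n < m) (y : Fin m → B) :
    ∑ σ : Equiv.Perm (Fin m), (Equiv.Perm.sign σ : ℤ) • (List.ofFn fun i => y (σ i)).prod = 0 := by
  classical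
  let F : MultilinearMap R (fun _ : Fin m => B) B := MultilinearMap.mkPiAlgebraFin R m B
  let A : B [⋀^Fin m]→ₗ[R] B := MultilinearMap.alternatization F
  have hA : A y = ∑ σ : Equiv.Perm (Fin m), (Equiv.Perm.sign σ : ℤ) • (List.ofFn fun i => y (σ i)).prod := by
    show (MultilinearMap.alternatization F) y = _
    rw [MultilinearMap.alternatization_apply]
    refine Finset.sum_congr rfl fun σ _ => ?_
    rfl
  rw [← hA]
  -- write every `y i` as a combination of the `e j`
  have hc : ∀ i, ∃ c : Fin n → R, y i = ∑ j, c j • e j := by
    intro i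
    have : y i ∈ Submodule.span R (Set.range e) := by rw [he]; trivial
    obtain ⟨c, hc⟩ := (Submodule.mem_span_range_iff_exists_fun R).mp this
    exact ⟨c, hc.symm⟩
  choose c hc using hc
  have hy : y = fun i => ∑ j, c i j • e j := funext hc
  rw [hy]
  have h1 : A (fun i => ∑ j, c i j • e j) =
      ∑ r : Fin m → Fin n, A (fun i => c i (r i) • e (r i)) := by
    exact A.toMultilinearMap.map_sum (fun i j => c i j • e j)
  rw [h1]
  refine Finset.sum_eq_zero fun r _ => ?_
  have h2 : A (fun i => c i (r i) • e (r i)) = (∏ i, c i (r i)) • A (fun i => e (r i)) :=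
    A.toMultilinearMap.map_smul_univ (fun i => c i (r i)) (fun i => e (r i))
  rw [h2]
  have h3 : ¬ Function.Injective r := by
    intro hr
    have := Fintype.card_le_of_injective r hr
    simp at this
    omega
  obtain ⟨i, j, hij, hne⟩ := Function.not_injective_iff.mp h3
  rw [A.map_eq_zero_of_eq (fun i => e (r i)) (congrArg e hij) hne, smul_zero]

/-- Matrices of size `n` over a commutative ring satisfy the standard identity of degree `n * n + 1`. -/
theorem matrix_identity (n : ℕ) (R : Type u) [CommRing R]
    (y : Fin (n * n + 1) → Matrix (Fin n) (Fin n) R) :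
    ∑ σ : Equiv.Perm (Fin (n * n + 1)), (Equiv.Perm.sign σ : ℤ) • (List.ofFn fun i => y (σ i)).prod = 0 := by
  classical
  let b := Matrix.stdBasis R (Fin n) (Fin n)
  let e : Fin (n * n) → Matrix (Fin n) (Fin n) R := fun k => b (finProdFinEquiv.symm k)
  refine standard_identity (R := R) e ?_ (Nat.lt_succ_self _) y
  have : Set.range e = Set.range b := by
    have := finProdFinEquiv.symm.surjective.range_comp (b : Fin n × Fin n → Matrix (Fin n) (Fin n) R)
    exact this
  rw [this]
  exact b.span_eq

end Pool.Agent.H30.PI
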