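import Pool.Agent.H30.PI.Spec

set_option autoImplicit false

/-! # Rational 2-groups in rings with a polynomial identity: maximal abelian normal subgroups -/

namespace Pool.Agent.H30.PI

/-- A normal nontrivial subgroup of a 2-group has a nontrivial element fixed by all conjugations. -/
private lemma mx_fix {G : Type} [Group G] [Finite G] (hp : IsPGroup 2 G) (K : Subgroup G)
    (hK : ∀ x : G, ∀ k ∈ K, x * k * x⁻¹ ∈ K) (hne : K ≠ ⊥) :
    ∃ k ∈ K, k ≠ 1 ∧ ∀ x : G, x * k = k * x := by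
  classical
  have : Fact (Nat.Prime 2) := ⟨Nat.prime_two⟩
  let act : MulAction G K :=
    { smul := fun x k => ⟨x * k * x⁻¹, hK x k k.2⟩
      one_smul := fun k => Subtype.ext (by
        show (1 : G) * k * (1 : G)⁻¹ = k
        simp)
      mul_smul := fun x y k => Subtype.ext (by
        show (x * y) * (k : G) * (x * y)⁻¹ = x * (y * k * y⁻¹) * x⁻¹
        group) }
  have hcard : 2 ∣ Nat.card K := by
    have h1 : IsPGroup 2 K := hp.to_subgroup _
    obtain ⟨n, hn⟩ := IsPGroup.iff_card.mp h1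
    rw [hn]
    refine dvd_pow_self 2 ?_
    rintro rfl
    rw [pow_zero] at hn
    exact hne (Subgroup.card_eq_one.mp hn)
  have h1 : (1 : K) ∈ MulAction.fixedPoints G K := by
    intro x
    refine Subtype.ext ?_
    show x * ((1 : K) : G) * x⁻¹ = ((1 : K) : G)
    simp
  obtain ⟨k, hk, hk1⟩ := hp.exists_fixed_point_of_prime_dvd_card_of_fixed_point K hcard h1
  refine ⟨k, k.2, fun h => hk1 (Subtype.ext h.symm), fun x => ?_⟩
  have h3 : x * (k : G) * x⁻¹ = k := congrArg Subtype.val (hk x)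
  rw [mul_inv_eq_iff_eq_mul] at h3
  exact h3

/-- L. -/
theorem smax : SMax := by
  classical
  intro G _ _ hp
  obtain ⟨A, ⟨hAn, hAc⟩, hmax⟩ := Set.exists_max_image
    {A : Subgroup G | A.Normal ∧ ∀ a ∈ A, ∀ b ∈ A, a * b = b * a} (fun A => Nat.card A)
    (Set.toFinite _) ⟨⊥, inferInstance, fun a ha b hb => by
      rw [Subgroup.mem_bot] at ha hb
      rw [ha, hb]⟩
  refine ⟨A, hAn, hAc, ?_⟩
  intro g hg
  by_contra hgA
  -- the centralizer
  let C : Subgroup G := Subgroup.centralizer (A : Set G)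
  have hCmem : ∀ x : G, x ∈ C ↔ ∀ a ∈ A, a * x = x * a := fun x =>
    Subgroup.mem_centralizer_iff
  have hCn : ∀ x : G, ∀ c ∈ C, x * c * x⁻¹ ∈ C := by
    intro x c hc
    rw [hCmem] at hc ⊢
    intro a ha
    have h1 : x⁻¹ * a * x ∈ A := by
      have := hAn.conj_mem a ha x⁻¹
      simpa using this
    have h2 := hc _ h1
    calc a * (x * c * x⁻¹) = x * ((x⁻¹ * a * x) * c) * x⁻¹ := by group
      _ = x * (c * (x⁻¹ * a * x)) * x⁻¹ := by rw [h2]
      _ = x * c * x⁻¹ * a := by group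
  have hgC : g ∈ C := (hCmem g).2 fun a ha => (hg a ha).symm
  -- the quotient
  let π : G →* G ⧸ A := QuotientGroup.mk' A
  have hπ : ∀ x y : G, π x = π y ↔ x⁻¹ * y ∈ A := fun x y => QuotientGroup.eq
  have hπ1 : ∀ x : G, π x = 1 ↔ x ∈ A := fun x => QuotientGroup.eq_one_iff x
  let K : Subgroup (G ⧸ A) := C.map π
  have hKn : ∀ x : G ⧸ A, ∀ k ∈ K, x * k * x⁻¹ ∈ K := by
    intro x k hk
    obtain ⟨c, hc, rfl⟩ := hk
    obtain ⟨y, rfl⟩ := QuotientGroup.mk'_surjective A x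
    exact ⟨y * c * y⁻¹, hCn y c hc, by
      rw [map_mul, map_mul, map_inv]⟩
  have hKne : K ≠ ⊥ := by
    intro hbot
    have h1 : π g ∈ K := ⟨g, hgC, rfl⟩
    rw [hbot, Subgroup.mem_bot] at h1
    exact hgA ((hπ1 g).1 h1)
  obtain ⟨k, ⟨c, hc, rfl⟩, hk1, hkc⟩ := mx_fix (hp.to_quotient A) K hKn hKne
  have hcA : c ∉ A := fun h => hk1 ((hπ1 c).2 h)
  have hcomm : ∀ a ∈ A, a * c = c * a := (hCmem c).1 hc
  have hcz : ∀ (n : ℤ), ∀ a ∈ A, c ^ n * a = a * c ^ n := by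
    intro n a ha
    have h1 : Commute c a := (hcomm a ha).symm
    exact (h1.zpow_left n)
  have hconj : ∀ x : G, ∃ a ∈ A, x * c * x⁻¹ = a * c := by
    intro x
    have h1 := hkc (π x)
    have h2 : π (x * c * x⁻¹ * c⁻¹) = 1 := by
      rw [map_mul, map_mul, map_mul, map_inv, map_inv]
      change π x * π c = π c * π x at h1
      rw [h1]
      group
    exact ⟨x * c * x⁻¹ * c⁻¹, (hπ1 _).1 h2, by group⟩
  -- the larger subgroup
  let B : Subgroup G :=
    { carrier := {x | ∃ a ∈ A, ∃ n : ℤ, x = a * c ^ n}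
      mul_mem' := by
        rintro x y ⟨a, ha, n, rfl⟩ ⟨b, hb, m, rfl⟩
        refine ⟨a * b, A.mul_mem ha hb, n + m, ?_⟩
        calc a * c ^ n * (b * c ^ m) = a * (c ^ n * b) * c ^ m := by group
          _ = a * (b * c ^ n) * c ^ m := by rw [hcz n b hb]
          _ = a * b * c ^ (n + m) := by rw [zpow_add]; group
      one_mem' := ⟨1, A.one_mem, 0, by simp⟩
      inv_mem' := by
        rintro x ⟨a, ha, n, rfl⟩
        refine ⟨a⁻¹, A.inv_mem ha, -n, ?_⟩
        rw [mul_inv_rev, ← zpow_neg]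
        exact hcz (-n) a⁻¹ (A.inv_mem ha) }
  have hBmem : ∀ x : G, x ∈ B ↔ ∃ a ∈ A, ∃ n : ℤ, x = a * c ^ n := fun x => Iff.rfl
  have hBn : B.Normal := by
    refine ⟨?_⟩
    rintro x ⟨a, ha, n, rfl⟩ y
    obtain ⟨b, hb, hbc⟩ := hconj y
    have h1 : y * c ^ n * y⁻¹ = b ^ n * c ^ n := by
      rw [← conj_zpow, hbc]
      have h2 : Commute b c := hcomm b hb
      exact h2.mul_zpow n
    refine (hBmem _).2 ⟨y * a * y⁻¹ * b ^ n, A.mul_mem (hAn.conj_mem a ha y) (A.zpow_mem hb n), n, ?_⟩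
    calc y * (a * c ^ n) * y⁻¹ = y * a * y⁻¹ * (y * c ^ n * y⁻¹) := by group
      _ = y * a * y⁻¹ * (b ^ n * c ^ n) := by rw [h1]
      _ = y * a * y⁻¹ * b ^ n * c ^ n := by group
  have hBc : ∀ x ∈ B, ∀ y ∈ B, x * y = y * x := by
    rintro x ⟨a, ha, n, rfl⟩ y ⟨b, hb, m, rfl⟩
    calc a * c ^ n * (b * c ^ m) = a * (c ^ n * b) * c ^ m := by group
      _ = a * (b * c ^ n) * c ^ m := by rw [hcz n b hb]
      _ = (a * b) * (c ^ n * c ^ m) := by group
      _ = (b * a) * (c ^ m * c ^ n) := by rw [hAc a ha b hb, ← zpow_add, ← zpow_add, add_comm n m]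
      _ = b * (a * c ^ m) * c ^ n := by group
      _ = b * (c ^ m * a) * c ^ n := by rw [hcz m a ha]
      _ = b * c ^ m * (a * c ^ n) := by group
  have hAB : A ≤ B := fun a ha => (hBmem a).2 ⟨a, ha, 0, by simp⟩
  have hcB : c ∈ B := (hBmem c).2 ⟨1, A.one_mem, 1, by simp⟩
  have h1 : Nat.card B ≤ Nat.card A := hmax B ⟨hBn, hBc⟩
  have h2 : A = B := Subgroup.eq_of_le_of_card_ge hAB h1
  exact hcA (h2 ▸ hcB)

end Pool.Agent.H30.PI
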