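import Pool.Agent.H30.PI.Spec

set_option autoImplicit false

/-! # Groups of exponent 2 in a ring where an odd prime is nilpotent -/

namespace Pool.Agent.H30.PI

private lemma odd_comm {G : Type} [Group G] (E : Subgroup G) (hE : ∀ e ∈ E, e ^ 2 = 1) (e f : G)
    (he : e ∈ E) (hf : f ∈ E) : f * e = e * f := by
  have h1 : e * e = 1 := by rw [← pow_two]; exact hE e he
  have h2 : f * f = 1 := by rw [← pow_two]; exact hE f hf
  have h3 : (e * f) * (e * f) = 1 := by rw [← pow_two]; exact hE _ (E.mul_mem he hf)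
  have h4 : (e * f)⁻¹ = e * f := inv_eq_of_mul_eq_one_left h3
  have h5 : e⁻¹ = e := inv_eq_of_mul_eq_one_left h1
  have h6 : f⁻¹ = f := inv_eq_of_mul_eq_one_left h2
  rw [mul_inv_rev, h5, h6] at h4
  exact h4

private lemma odd_eig {C : Type} [Ring C] (h : ℕ) (hh : (2 : C) * (h : C) = 1) (E : Subgroup Cˣ)
    (hE : ∀ e ∈ E, e ^ 2 = 1) (T : Finset Cˣ) :
    (∀ e ∈ T, e ∈ E) →
    AddSubgroup.closure {v : C | ∀ e ∈ T, (e : C) * v = v ∨ (e : C) * v = -v} = ⊤ := by
  classical
  induction T using Finset.induction_on with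
  | empty => intro _; simp
  | insert e T heT ih =>
    intro hT
    have ih' := ih (fun x hx => hT x (Finset.mem_insert_of_mem hx))
    rw [eq_top_iff, ← ih', AddSubgroup.closure_le]
    intro u hu
    have heE : e ∈ E := hT e (Finset.mem_insert_self _ _)
    have he2 : (e : C) * e = 1 := by
      have h0 := hE e heE
      rw [pow_two] at h0
      have h1 := congrArg Units.val h0
      simpa using h1
    have hcomm : ∀ f ∈ T, (f : C) * e = e * f := by
      intro f hf
      have h0 := odd_comm E hE e f heE (hT f (Finset.mem_insert_of_mem hf))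
      have h1 := congrArg Units.val h0
      simpa using h1
    have hch : ∀ x : C, x * (h : C) = (h : C) * x := fun x => (Nat.cast_commute h x).eq.symm
    have key1 : (h : C) * (u + e * u) ∈ {v : C | ∀ f ∈ insert e T, (f : C) * v = v ∨ (f : C) * v = -v} := by
      intro f hf
      rcases Finset.mem_insert.mp hf with rfl | hf
      · left
        rw [← mul_assoc, hch, mul_assoc, mul_add, ← mul_assoc (f : C) (f : C) u, he2, one_mul, add_comm]
      · rcases hu f hf with h1 | h1
        · left
          rw [← mul_assoc, hch, mul_assoc, mul_add, ← mul_assoc (f : C) (e : C) u, hcomm f hf, mul_assoc, h1]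
        · right
          rw [← mul_assoc, hch, mul_assoc, mul_add, ← mul_assoc (f : C) (e : C) u, hcomm f hf, mul_assoc, h1,
            mul_neg, ← neg_add, mul_neg]
    have key2 : (h : C) * (u - e * u) ∈ {v : C | ∀ f ∈ insert e T, (f : C) * v = v ∨ (f : C) * v = -v} := by
      intro f hf
      rcases Finset.mem_insert.mp hf with rfl | hf
      · right
        rw [← mul_assoc, hch, mul_assoc, mul_sub, ← mul_assoc (f : C) (f : C) u, he2, one_mul, ← mul_neg,
          neg_sub]
      · rcases hu f hf with h1 | h1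
        · left
          rw [← mul_assoc, hch, mul_assoc, mul_sub, ← mul_assoc (f : C) (e : C) u, hcomm f hf, mul_assoc, h1]
        · right
          rw [← mul_assoc, hch, mul_assoc, mul_sub, ← mul_assoc (f : C) (e : C) u, hcomm f hf, mul_assoc, h1,
            mul_neg, ← mul_neg (h : C)]
          congr 1
          abel
    have e1 : u = (h : C) * (u + e * u) + (h : C) * (u - e * u) := by
      have e2 : (h : C) * (u + e * u) + (h : C) * (u - e * u) = (2 * (h : C)) * u := by
        rw [two_mul, ← mul_add, add_mul]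
        rw [← mul_add]
        congr 1
        abel
      rw [e2, hh, one_mul]
    have e3 : (h : C) * (u + e * u) + (h : C) * (u - e * u) ∈
        AddSubgroup.closure {v : C | ∀ f ∈ insert e T, (f : C) * v = v ∨ (f : C) * v = -v} :=
      AddSubgroup.add_mem _ (AddSubgroup.subset_closure key1) (AddSubgroup.subset_closure key2)
    rw [← e1] at e3
    exact e3

private lemma odd_pick' {C V : Type} [Ring C] [AddCommGroup V] (π : C →+ V) (r k p : ℕ) [Fact p.Prime]
    [Module (ZMod p) V] (hπ : Function.Surjective π) (hker : ∀ x : C, π x = 0 → ∃ y : C, p • y = x)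
    (g : Fin r → C) (hg : AddSubgroup.closure (Set.range g) = ⊤) (hk : (p : C) ^ k = 0) (S : Set C)
    (hS : AddSubgroup.closure S = ⊤) :
    ∃ n : ℕ, n ≤ r ∧ ∃ w : Fin n → C, (∀ i, w i ∈ S) ∧ AddSubgroup.closure (Set.range w) = ⊤ := by
  classical
  have hspan : ∀ X : Set C, AddSubgroup.closure X = ⊤ →
      Submodule.span (ZMod p) (π '' X) = (⊤ : Submodule (ZMod p) V) := by
    intro X hX
    rw [eq_top_iff]
    intro v _
    obtain ⟨c, rfl⟩ := hπ v
    have hc : c ∈ AddSubgroup.closure X := by rw [hX]; exact AddSubgroup.mem_top c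
    have key : ∀ c ∈ AddSubgroup.closure X, π c ∈ Submodule.span (ZMod p) (π '' X) := by
      intro c hc
      induction hc using AddSubgroup.closure_induction with
      | mem x hx => exact Submodule.subset_span ⟨x, hx, rfl⟩
      | zero => rw [map_zero]; exact Submodule.zero_mem _
      | add x y _ _ hx hy =>
        rw [map_add]
        exact Submodule.add_mem _ hx hy
      | neg x _ hx => rw [map_neg]; exact Submodule.neg_mem _ hx
    exact key c hc
  have hVr : Submodule.span (ZMod p) (Set.range (fun i => π (g i))) = (⊤ : Submodule (ZMod p) V) := by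
    have h1 := hspan _ hg
    rw [← Set.range_comp] at h1
    exact h1
  have hfin : Module.Finite (ZMod p) V := by
    refine ⟨⟨Finset.univ.image (fun i => π (g i)), ?_⟩⟩
    rw [Finset.coe_image, Finset.coe_univ, Set.image_univ]
    exact hVr
  have hfr : Module.finrank (ZMod p) V ≤ r := by
    have h1 := finrank_range_le_card (R := ZMod p) (fun i => π (g i))
    rw [Set.finrank, hVr, finrank_top, Fintype.card_fin] at h1
    exact h1
  obtain ⟨f, hf1, hf2, -⟩ := Submodule.exists_fun_fin_finrank_span_eq (ZMod p) (π '' S)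
  have hn : Module.finrank (ZMod p) (Submodule.span (ZMod p) (π '' S)) ≤ r := by
    rw [hspan S hS, finrank_top]
    exact hfr
  have hf2' : Submodule.span (ZMod p) (Set.range f) = ⊤ := by
    rw [hf2]; exact hspan S hS
  choose w hw1 hw2 using hf1
  refine ⟨_, hn, w, hw1, ?_⟩
  have hstep : ∀ v : C, ∃ d ∈ AddSubgroup.closure (Set.range w), ∃ v' : C, v = d + p • v' := by
    intro v
    have h1 : Submodule.span (ZMod p) (Set.range f) ≤
        AddSubgroup.toZModSubmodule p ((AddSubgroup.closure (Set.range w)).map π) := by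
      rw [Submodule.span_le]
      rintro _ ⟨i, rfl⟩
      exact ⟨w i, AddSubgroup.subset_closure ⟨i, rfl⟩, hw2 i⟩
    have h2 : π v ∈ AddSubgroup.toZModSubmodule p ((AddSubgroup.closure (Set.range w)).map π) := by
      apply h1
      rw [hf2']
      exact Submodule.mem_top
    obtain ⟨d, hd, hd2⟩ := h2
    refine ⟨d, hd, ?_⟩
    have h3 : π (v - d) = 0 := by rw [map_sub, hd2, sub_self]
    obtain ⟨y, hy⟩ := hker _ h3
    exact ⟨y, by rw [hy]; abel⟩
  have hiter : ∀ j : ℕ, ∀ v : C, ∃ d ∈ AddSubgroup.closure (Set.range w), ∃ v' : C,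
      v = d + (p ^ j) • v' := by
    intro j
    induction j with
    | zero => intro v; exact ⟨0, AddSubgroup.zero_mem _, v, by simp⟩
    | succ j ih =>
      intro v
      obtain ⟨d, hd, v', hv'⟩ := ih v
      obtain ⟨d', hd', v'', hv''⟩ := hstep v'
      refine ⟨d + (p ^ j) • d', AddSubgroup.add_mem _ hd (AddSubgroup.nsmul_mem _ hd' _), v'', ?_⟩
      rw [hv', hv'', nsmul_add, pow_succ, mul_smul, add_assoc]
  rw [eq_top_iff]
  intro v _
  obtain ⟨d, hd, v', hv'⟩ := hiter k v
  rw [nsmul_eq_mul, Nat.cast_pow, hk, zero_mul, add_zero] at hv'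
  rw [hv']
  exact hd

private lemma odd_pick {C : Type} [Ring C] (r k p : ℕ) (hp : p.Prime) (g : Fin r → C)
    (hg : AddSubgroup.closure (Set.range g) = ⊤) (hk : (p : C) ^ k = 0) (S : Set C)
    (hS : AddSubgroup.closure S = ⊤) :
    ∃ n : ℕ, n ≤ r ∧ ∃ w : Fin n → C, (∀ i, w i ∈ S) ∧ AddSubgroup.closure (Set.range w) = ⊤ := by
  have hfact : Fact p.Prime := ⟨hp⟩
  let P : AddSubgroup C := (nsmulAddMonoidHom (α := C) p).range
  have hker : ∀ x : C, QuotientAddGroup.mk' P x = 0 ↔ ∃ y : C, p • y = x := by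
    intro x
    have h1 : QuotientAddGroup.mk' P x = 0 ↔ x ∈ P := QuotientAddGroup.eq_zero_iff x
    rw [h1]
    exact Iff.rfl
  have hV : ∀ x : C ⧸ P, p • x = 0 := by
    intro x
    obtain ⟨y, rfl⟩ := QuotientAddGroup.mk'_surjective P x
    rw [← map_nsmul]
    exact (hker _).2 ⟨y, rfl⟩
  let M : Module (ZMod p) (C ⧸ P) := AddCommGroup.zmodModule hV
  exact odd_pick' (QuotientAddGroup.mk' P) r k p (QuotientAddGroup.mk'_surjective P)
    (fun x hx => (hker x).1 hx) g hg hk S hS

private lemma odd_fin {C : Type} [Ring C] (r k p : ℕ) (hp : p.Prime) (g : Fin r → C)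
    (hg : AddSubgroup.closure (Set.range g) = ⊤) (hk : (p : C) ^ k = 0) : Finite C := by
  have hfg : AddGroup.FG C := ⟨⟨(Set.finite_range g).toFinset, by simpa using hg⟩⟩
  have ht : IsAddTorsion C := by
    intro x
    rw [isOfFinAddOrder_iff_nsmul_eq_zero]
    refine ⟨p ^ k, pow_pos hp.pos k, ?_⟩
    rw [nsmul_eq_mul, Nat.cast_pow, hk, zero_mul]
  exact AddCommGroup.finite_of_fg_isAddTorsion C ht

theorem sodd : SOdd := by
  classical
  intro r k p hp hp2 C _ g hg hk E hE
  have hfC : Finite C := odd_fin r k p hp g hg hk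
  refine ⟨inferInstance, ?_⟩
  -- the half
  obtain ⟨h, hh⟩ : ∃ h : ℕ, p ^ k + 1 = 2 * h := by
    have h1 : Odd (p ^ k) := (hp.odd_of_ne_two hp2).pow
    obtain ⟨m, hm⟩ := h1
    exact ⟨m + 1, by omega⟩
  have hh' : (2 : C) * (h : C) = 1 := by
    have h1 := congrArg (Nat.cast : ℕ → C) hh
    push_cast at h1
    rw [hk, zero_add] at h1
    exact h1.symm
  let hft : Fintype Cˣ := Fintype.ofFinite _
  let T : Finset Cˣ := Finset.univ.filter (fun e => e ∈ E)
  have hT := odd_eig h hh' E hE T (by intro e he; simpa [T] using he)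
  obtain ⟨n, hn, w, hw, hwt⟩ := odd_pick r k p hp g hg hk _ hT
  have hw' : ∀ i, ∀ e ∈ E, (e : C) * w i = w i ∨ (e : C) * w i = - w i := by
    intro i e he
    exact hw i e (by simpa [T] using he)
  have hinj : Function.Injective (fun (e : E) (i : Fin n) => decide (((e : Cˣ) : C) * w i = w i)) := by
    intro e e' hee
    have h1 : ∀ i, ((e : Cˣ) : C) * w i = ((e' : Cˣ) : C) * w i := by
      intro i
      have h2 := congrFun hee i
      simp only [decide_eq_decide] at h2
      by_cases h3 : ((e : Cˣ) : C) * w i = w i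
      · rw [h3, h2.1 h3]
      · have h4 : ¬ ((e' : Cˣ) : C) * w i = w i := fun h5 => h3 (h2.2 h5)
        rw [(hw' i e e.2).resolve_left h3, (hw' i e' e'.2).resolve_left h4]
    have h2 : ∀ v : C, ((e : Cˣ) : C) * v = ((e' : Cˣ) : C) * v := by
      intro v
      have hv : v ∈ AddSubgroup.closure (Set.range w) := by rw [hwt]; exact AddSubgroup.mem_top v
      induction hv using AddSubgroup.closure_induction with
      | mem x hx => obtain ⟨i, rfl⟩ := hx; exact h1 i
      | zero => simp
      | add x y _ _ hx hy => rw [mul_add, mul_add, hx, hy]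
      | neg x _ hx => rw [mul_neg, mul_neg, hx]
    have h3 := h2 1
    rw [mul_one, mul_one] at h3
    exact Subtype.ext (Units.ext h3)
  have hc := Nat.card_le_card_of_injective _ hinj
  have hc2 : Nat.card (Fin n → Bool) = 2 ^ n := by
    rw [Nat.card_eq_fintype_card, Fintype.card_fun, Fintype.card_bool, Fintype.card_fin]
  rw [hc2] at hc
  exact hc.trans (Nat.pow_le_pow_right (by norm_num) hn)

end Pool.Agent.H30.PI
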