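import Pool.Agent.H30.PI.Spec

set_option autoImplicit false

/-! # Few recurrent windows imply eventually periodic -/

namespace Pool.Agent.H30.PI

/-- The window of length `l` at position `k`. -/
private def pwin {d : ℕ} (s : ℕ → Fin d) (l k : ℕ) : Fin l → Fin d := fun i => s (k + i)

/-- Recurrent windows. -/
private def PRec {d : ℕ} (s : ℕ → Fin d) (l : ℕ) (u : Fin l → Fin d) : Prop :=
  ∀ n, ∃ k, n ≤ k ∧ pwin s l k = u

open Classical in
/-- The set of recurrent windows. -/
private noncomputable def pset {d : ℕ} (s : ℕ → Fin d) (l : ℕ) : Finset (Fin l → Fin d) :=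
  Finset.univ.filter (PRec s l)

private theorem mem_pset {d : ℕ} (s : ℕ → Fin d) (l : ℕ) (u : Fin l → Fin d) :
    u ∈ pset s l ↔ PRec s l u := by
  classical
  unfold pset
  simp

private def pres {d : ℕ} (l : ℕ) (u : Fin (l + 1) → Fin d) : Fin l → Fin d := fun i => u i.castSucc

private theorem pres_pwin {d : ℕ} (s : ℕ → Fin d) (l k : ℕ) :
    pres l (pwin s (l + 1) k) = pwin s l k := by
  funext i
  simp [pres, pwin]

private theorem pexists_bound {d : ℕ} (s : ℕ → Fin d) (l : ℕ) :
    ∃ n0, ∀ k, n0 ≤ k → pwin s l k ∈ pset s l := by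
  classical
  have h : ∀ u : Fin l → Fin d, ∃ n, ∀ k, n ≤ k → pwin s l k = u → u ∈ pset s l := by
    intro u
    by_cases hu : u ∈ pset s l
    · exact ⟨0, fun _ _ _ => hu⟩
    · rw [mem_pset] at hu
      unfold PRec at hu
      push Not at hu
      obtain ⟨n, hn⟩ := hu
      exact ⟨n, fun k hk he => absurd he (hn k hk)⟩
  choose n hn using h
  refine ⟨Finset.univ.sup n, fun k hk => ?_⟩
  exact hn (pwin s l k) k (le_trans (Finset.le_sup (Finset.mem_univ _)) hk) rfl

private theorem pimage {d : ℕ} (s : ℕ → Fin d) (l : ℕ) :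
    (pset s (l + 1)).image (pres l) = pset s l := by
  classical
  ext u
  rw [Finset.mem_image, mem_pset]
  constructor
  · rintro ⟨v, hv, rfl⟩ n
    rw [mem_pset] at hv
    obtain ⟨k, hk, hkv⟩ := hv n
    exact ⟨k, hk, by rw [← hkv, pres_pwin]⟩
  · intro hu
    obtain ⟨n0, hn0⟩ := pexists_bound s (l + 1)
    obtain ⟨k, hk, hku⟩ := hu n0
    exact ⟨pwin s (l + 1) k, hn0 k hk, by rw [pres_pwin, hku]⟩

theorem sper : SPer := by
  classical
  intro d m s hF
  have hc : ∀ l, (pset s l).card < m := by
    intro l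
    refine hF l (pset s l) ?_
    intro u hu n
    rw [mem_pset] at hu
    obtain ⟨k, hk, hku⟩ := hu n
    exact ⟨k, hk, fun i => congrFun hku i⟩
  -- a length at which the number of recurrent windows does not grow
  have hl : ∃ l, (pset s (l + 1)).card ≤ (pset s l).card := by
    by_contra hcon
    push Not at hcon
    have hg : ∀ l, l ≤ (pset s l).card := by
      intro l
      induction l with
      | zero => exact Nat.zero_le _
      | succ l ih => exact Nat.succ_le_of_lt (lt_of_le_of_lt ih (hcon l))
    exact absurd (hc m) (not_lt.mpr (hg m))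
  obtain ⟨l, hl⟩ := hl
  have hinj : Set.InjOn (pres l) (pset s (l + 1) : Set (Fin (l + 1) → Fin d)) := by
    rw [← Finset.card_image_iff]
    refine le_antisymm Finset.card_image_le ?_
    rw [pimage]
    exact hl
  obtain ⟨n0, hn0⟩ := pexists_bound s (l + 1)
  have hstep : ∀ k k', n0 ≤ k → n0 ≤ k' → pwin s l k = pwin s l k' → s (k + l) = s (k' + l) := by
    intro k k' hk hk' he
    have h1 : pwin s (l + 1) k = pwin s (l + 1) k' :=
      hinj (hn0 k hk) (hn0 k' hk') (by rw [pres_pwin, pres_pwin, he])
    have h2 := congrFun h1 (Fin.last l)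
    simpa [pwin] using h2
  have hall : ∀ k k', n0 ≤ k → n0 ≤ k' → pwin s l k = pwin s l k' →
      ∀ j, s (k + j) = s (k' + j) := by
    intro k k' hk hk' he j
    induction j using Nat.strong_induction_on with
    | _ j ih =>
      by_cases hj : j < l
      · exact congrFun he ⟨j, hj⟩
      · obtain ⟨t, rfl⟩ : ∃ t, j = t + l := ⟨j - l, by omega⟩
        have h := hstep (k + t) (k' + t) (by omega) (by omega) (by
          funext i
          have h3 := ih (t + i) (by have := i.2; omega)
          simpa [pwin, Nat.add_assoc] using h3)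
        simpa [Nat.add_assoc] using h
  obtain ⟨a, b, hab, he⟩ :=
    Finite.exists_ne_map_eq_of_infinite (fun n : ℕ => pwin s l (n0 + n))
  have main : ∀ a b : ℕ, a < b → pwin s l (n0 + a) = pwin s l (n0 + b) →
      ∃ n p, 0 < p ∧ ∀ k, n ≤ k → s (k + p) = s k := by
    intro a b hab he
    refine ⟨n0 + a, b - a, by omega, ?_⟩
    intro k hk
    have h := hall (n0 + a) (n0 + b) (by omega) (by omega) he (k - (n0 + a))
    have e1 : n0 + a + (k - (n0 + a)) = k := by omega
    have e2 : n0 + b + (k - (n0 + a)) = k + (b - a) := by omega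
    rw [e1, e2] at h
    exact h.symm
  rcases lt_or_gt_of_ne hab with h | h
  · exact main a b h he
  · exact main b a h he.symm

end Pool.Agent.H30.PI
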