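import Pool.Agent.H30.PI.Spec

set_option autoImplicit false

/-! # Permuting a divided product gives a smaller value -/

namespace Pool.Agent.H30.PI

private theorem prm_len {d m : ℕ} (f : Fin m → List (Fin d)) {L L' : List (Fin m)}
    (h : List.Perm L' L) :
    ((L'.map f).flatten).length = ((L.map f).flatten).length :=
  ((h.map f).flatten).length_eq

private theorem prm_main (hA : SVal) {d m l : ℕ} (u v : Fin m → List (Fin d))
    (hl : ∀ i, (u i).length = l) (hd : ∀ i j, i < j → val (u j) < val (u i))
    (q : List (Fin d)) : ∀ L : List (Fin m), L.Pairwise (fun a b => a < b) →
      ∀ L' : List (Fin m), List.Perm L' L → L' ≠ L →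
        val ((L'.map fun i => u i ++ v i).flatten ++ q) <
          val ((L.map fun i => u i ++ v i).flatten ++ q) := by
  intro L
  induction L with
  | nil =>
    intro _ L' hp hne
    exact absurd (List.perm_nil.1 hp) hne
  | cons a T ih =>
    intro hs L' hp hne
    cases L' with
    | nil => exact absurd hp.symm (by
        intro h
        exact absurd (List.perm_nil.1 h) (List.cons_ne_nil a T))
    | cons b T' =>
      have hlen := prm_len (fun i => u i ++ v i) hp
      simp only [List.map_cons, List.flatten_cons, List.length_append] at hlen
      rw [hl, hl] at hlen
      by_cases hab : b = a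
      · subst hab
        have hp' : List.Perm T' T := (List.perm_cons b).1 hp
        have hne' : T' ≠ T := fun h => hne (by rw [h])
        have h1 := ih (List.pairwise_cons.1 hs).2 T' hp' hne'
        have h2 := prm_len (fun i => u i ++ v i) hp'
        simp only [List.map_cons, List.flatten_cons]
        rw [List.append_assoc (u b ++ v b), List.append_assoc (u b ++ v b),
          (hA d).1 (u b ++ v b), (hA d).1 (u b ++ v b), List.length_append, List.length_append,
          h2]
        exact Nat.add_lt_add_left h1 _
      · have hb : b ∈ T := by
          have h1 : b ∈ a :: T := hp.subset List.mem_cons_self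
          exact (List.mem_cons.1 h1).resolve_left hab
        have hab' : a < b := (List.pairwise_cons.1 hs).1 b hb
        have h2 := (hA d).2.2.2.1 [] (u b) (u a)
          (v b ++ (T'.map fun i => u i ++ v i).flatten ++ q)
          (v a ++ (T.map fun i => u i ++ v i).flatten ++ q)
          ((hl b).trans (hl a).symm) (by
            simp only [List.length_append]
            omega) (hd a b hab')
        simp only [List.map_cons, List.flatten_cons]
        simp only [List.nil_append, List.append_assoc] at h2
        simp only [List.append_assoc]
        exact h2

/-- G. Permuting a divided product gives a smaller value. -/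
theorem sperm (hA : SVal) : SPerm := by
  intro d m l p q u v hl hd σ hσ
  have h1 : (List.ofFn fun i => u i ++ v i) = (List.finRange m).map fun i => u i ++ v i :=
    List.ofFn_eq_map
  have h2 : (List.ofFn fun i => u (σ i) ++ v (σ i)) =
      ((List.finRange m).map σ).map fun i => u i ++ v i := by
    rw [List.map_map]
    exact List.ofFn_eq_map
  have hp : List.Perm ((List.finRange m).map σ) (List.finRange m) :=
    Equiv.Perm.map_finRange_perm σ
  have hne : (List.finRange m).map σ ≠ List.finRange m := by
    intro h
    apply hσ
    ext1 i
    have h3 : (List.finRange m).map σ = (List.finRange m).map id := by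
      rw [h, List.map_id]
    exact List.map_inj_left.1 h3 i (List.mem_finRange i)
  have h4 := prm_main hA u v hl hd q (List.finRange m) (List.pairwise_lt_finRange m) _ hp hne
  have h5 := prm_len (fun i => u i ++ v i) hp
  rw [h1, h2, List.append_assoc, List.append_assoc, (hA d).1 p, (hA d).1 p, List.length_append,
    List.length_append, h5]
  exact Nat.add_lt_add_left h4 _

end Pool.Agent.H30.PI
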