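import Pool.Agent.H30.PI.Spec

set_option autoImplicit false

namespace Pool.Agent.H30.PI

theorem spowX : SPow := by
  intro d s n p hp hper e
  have hmul : ∀ k j, n ≤ k → s (k + j * p) = s k := by
    intro k j hk
    induction j with
    | zero => simp
    | succ j ih =>
      have : k + (j + 1) * p = (k + j * p) + p := by ring
      rw [this, hper _ (le_trans hk (Nat.le_add_right _ _)), ih]
  refine ⟨n + e * p, (List.range n).map s, (List.range' n p).map s, [], ?_, ?_⟩
  · intro h
    have := congrArg List.length h
    simp at this
    omega
  · rw [List.append_nil]
    induction e with
    | zero => simp
    | succ e ih =>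
      have h1 : n + (e + 1) * p = (n + e * p) + p := by ring
      have h2 : (List.range ((n + e * p) + p)) = List.range (n + e * p) ++ List.range' (n + e * p) p := by
        rw [List.range_eq_range', List.range_eq_range', ← List.range'_append_1]
        simp
      rw [h1, h2, List.map_append, ih, List.replicate_succ', List.flatten_append, ← List.append_assoc]
      congr 1
      simp only [List.flatten_cons, List.flatten_nil, List.append_nil]
      apply List.ext_getElem
      · simp
      · intro i hi hi'
        simp only [List.getElem_map, List.getElem_range', one_mul]
        have h3 : n + e * p + i = (n + i) + e * p := by ring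
        rw [h3, hmul _ _ (Nat.le_add_right _ _)]

end Pool.Agent.H30.PI
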