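import Pool.Agent.H30.PI.Spec

set_option autoImplicit false

/-! # The quotient of a ring by an integer -/

namespace Pool.Agent.H30.PI

/-- The subring of additive combinations of the image of `G`. -/
private def quoR {G B : Type} [Group G] [Ring B] (φ : G →* B) : Subring B where
  carrier := (AddSubgroup.closure (Set.range φ) : Set B)
  zero_mem' := AddSubgroup.zero_mem _
  add_mem' := fun ha hb => AddSubgroup.add_mem _ ha hb
  neg_mem' := fun ha => AddSubgroup.neg_mem _ ha
  one_mem' := AddSubgroup.subset_closure ⟨1, map_one φ⟩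
  mul_mem' := by
    intro a b ha hb
    refine AddSubgroup.closure_induction (p := fun x _ => x * b ∈ AddSubgroup.closure (Set.range φ))
      ?_ ?_ ?_ ?_ ha
    · rintro _ ⟨x, rfl⟩
      refine AddSubgroup.closure_induction
        (p := fun y _ => φ x * y ∈ AddSubgroup.closure (Set.range φ)) ?_ ?_ ?_ ?_ hb
      · rintro _ ⟨y, rfl⟩
        exact AddSubgroup.subset_closure ⟨x * y, map_mul φ x y⟩
      · rw [mul_zero]
        exact AddSubgroup.zero_mem _
      · intro y z _ _ hy hz
        rw [mul_add]
        exact AddSubgroup.add_mem _ hy hz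
      · intro y _ hy
        rw [mul_neg]
        exact AddSubgroup.neg_mem _ hy
    · show (0 : B) * b ∈ AddSubgroup.closure (Set.range φ)
      rw [zero_mul]
      exact AddSubgroup.zero_mem _
    · intro y z _ _ hy hz
      show (y + z) * b ∈ AddSubgroup.closure (Set.range φ)
      rw [add_mul]
      exact AddSubgroup.add_mem _ hy hz
    · intro y _ hy
      show (-y) * b ∈ AddSubgroup.closure (Set.range φ)
      rw [neg_mul]
      exact AddSubgroup.neg_mem _ hy

private theorem quo_mem {G B : Type} [Group G] [Ring B] (φ : G →* B) (x : B) :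
    x ∈ quoR φ ↔ x ∈ AddSubgroup.closure (Set.range φ) := Iff.rfl

theorem squo : SQuo := by
  intro r n G B _ _ φ g hg
  let R : Subring B := quoR φ
  let I : Ideal R := Ideal.span {(n : R)}
  have hI : I.IsTwoSided := by
    refine ⟨fun {a} b ha => ?_⟩
    obtain ⟨c, hc⟩ := Ideal.mem_span_singleton'.1 ha
    refine Ideal.mem_span_singleton'.2 ⟨c * b, ?_⟩
    rw [← hc, mul_assoc, mul_assoc, (Nat.cast_commute n b).eq]
  let φR : G →* R := φ.codRestrict R fun x => AddSubgroup.subset_closure ⟨x, rfl⟩
  let q : R →+* (R ⧸ I) := Ideal.Quotient.mk I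
  let ψ : G →* (R ⧸ I) := q.toMonoidHom.comp φR
  have hψ : ∀ x, ψ x = q (φR x) := fun x => rfl
  refine ⟨R ⧸ I, inferInstance, ψ, ?_, ?_, ?_⟩
  · have h1 : q (n : R) = 0 := Ideal.Quotient.eq_zero_iff_mem.2 (Ideal.mem_span_singleton_self _)
    rw [map_natCast] at h1
    exact h1
  · rw [eq_top_iff]
    intro c _
    obtain ⟨⟨x, hx⟩, rfl⟩ := Ideal.Quotient.mk_surjective c
    have hx' : x ∈ AddSubgroup.closure (Set.range fun i => φ (g i)) := by
      rw [← hg]
      exact hx
    have key : ∀ (y : B) (_ : y ∈ AddSubgroup.closure (Set.range fun i => φ (g i))) (hy : y ∈ R),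
        q ⟨y, hy⟩ ∈ AddSubgroup.closure (Set.range fun i => ψ (g i)) := by
      intro y hy
      refine AddSubgroup.closure_induction
        (p := fun y _ => ∀ hy : y ∈ R, q ⟨y, hy⟩ ∈ AddSubgroup.closure (Set.range fun i => ψ (g i)))
        ?_ ?_ ?_ ?_ hy
      · rintro _ ⟨i, rfl⟩ h
        exact AddSubgroup.subset_closure ⟨i, rfl⟩
      · intro h
        have : (⟨0, h⟩ : R) = 0 := rfl
        rw [this, map_zero]
        exact AddSubgroup.zero_mem _
      · intro y z hy hz iy iz h
        have hy' : y ∈ R := by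
          show y ∈ AddSubgroup.closure (Set.range φ)
          rw [hg]; exact hy
        have hz' : z ∈ R := by
          show z ∈ AddSubgroup.closure (Set.range φ)
          rw [hg]; exact hz
        have : (⟨y + z, h⟩ : R) = ⟨y, hy'⟩ + ⟨z, hz'⟩ := rfl
        rw [this, map_add]
        exact AddSubgroup.add_mem _ (iy hy') (iz hz')
      · intro y hy iy h
        have hy' : y ∈ R := by
          show y ∈ AddSubgroup.closure (Set.range φ)
          rw [hg]; exact hy
        have : (⟨-y, h⟩ : R) = -⟨y, hy'⟩ := rfl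
        rw [this, map_neg]
        exact AddSubgroup.neg_mem _ (iy hy')
    exact key x hx' hx
  · intro x hx
    have h1 : q (φR x - 1) = 0 := by
      rw [map_sub, map_one, ← hψ, hx, sub_self]
    obtain ⟨a, ha⟩ := Ideal.mem_span_singleton'.1 (Ideal.Quotient.eq_zero_iff_mem.1 h1)
    refine ⟨a.1, a.2, ?_⟩
    have h2 := congrArg Subtype.val ha
    have h3 : φ x - 1 = a.1 * (n : B) := h2.symm
    rw [h3, nsmul_eq_mul, (Nat.cast_commute n a.1).eq]

end Pool.Agent.H30.PI
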