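import Pool.Agent.H30.PI.Spec

/-!
# MP_cc8356_al, RAT2-PI, part D: many recurrent windows give a divided product
-/

set_option autoImplicit false

namespace Pool.Agent.H30.PI

/-- the window of length `b` at the position `a` -/
private def rcWin {d : ℕ} (s : ℕ → Fin d) (a b : ℕ) : List (Fin d) :=
  (List.range b).map fun t => s (a + t)

private theorem rc_append {d : ℕ} (s : ℕ → Fin d) (a b c : ℕ) :
    rcWin s a b ++ rcWin s (a + b) c = rcWin s a (b + c) := by
  unfold rcWin
  rw [List.range_add, List.map_append, List.map_map]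
  congr 1
  refine List.map_congr_left ?_
  intro t _
  show s (a + b + t) = s (a + (b + t))
  rw [Nat.add_assoc]

private theorem rc_append' {d : ℕ} (s : ℕ → Fin d) {a b c : ℕ} (h1 : a ≤ b) (h2 : b ≤ c) :
    rcWin s a (b - a) ++ rcWin s b (c - b) = rcWin s a (c - a) := by
  have h := rc_append s a (b - a) (c - b)
  rw [show a + (b - a) = b by omega, show b - a + (c - b) = c - a by omega] at h
  exact h

private theorem rc_ofFn {d l : ℕ} (s : ℕ → Fin d) (a : ℕ) (u : Fin l → Fin d)
    (h : ∀ i : Fin l, s (a + i) = u i) : List.ofFn u = rcWin s a l := by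
  have e : u = fun i : Fin l => s (a + i) := by
    funext i
    exact (h i).symm
  rw [e]
  unfold rcWin
  refine List.ext_getElem (by simp) ?_
  intro i h1 h2
  simp

private theorem rc_flat {d : ℕ} (s : ℕ → Fin d) (pos : ℕ → ℕ) (hp : ∀ i, pos i ≤ pos (i + 1))
    (m : ℕ) : (List.ofFn fun i : Fin m => rcWin s (pos i) (pos (i + 1) - pos i)).flatten =
      rcWin s (pos 0) (pos m - pos 0) := by
  have h0 : ∀ m, pos 0 ≤ pos m := by
    intro m
    induction m with
    | zero => exact le_refl _
    | succ m ih => exact ih.trans (hp m)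
  have e : ∀ m : ℕ, (List.ofFn fun i : Fin m => rcWin s (pos i) (pos (i + 1) - pos i)) =
      (List.range m).map fun i => rcWin s (pos i) (pos (i + 1) - pos i) := by
    intro m
    refine List.ext_getElem (by simp) ?_
    intro i h1 h2
    simp
  rw [e]
  induction m with
  | zero => simp [rcWin]
  | succ m ih =>
    rw [List.range_succ, List.map_append, List.flatten_append, ih]
    simp only [List.map_cons, List.map_nil, List.flatten_cons, List.flatten_nil, List.append_nil]
    exact rc_append' s (h0 m) (hp m)

/-- D. An infinite word with many recurrent factors contains a divided product. -/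
theorem srec (hA : SVal) : SRec := by
  intro d m l s F hF hm
  obtain ⟨_, _, _, _, h5⟩ := hA d
  let f : (Fin l → Fin d) → ℕ := fun u => val (List.ofFn u)
  have hinj : Function.Injective f := by
    intro u v huv
    have h := h5 (List.ofFn u) (List.ofFn v) (by simp) huv
    exact List.ofFn_injective h
  have hcard : m ≤ (F.image f).card := by
    rw [Finset.card_image_of_injective _ hinj]
    exact hm
  let e : Fin m → ℕ := fun i => (F.image f).orderEmbOfFin rfl (Fin.castLE hcard i.rev)
  have heF : ∀ i, e i ∈ F.image f := fun i => Finset.orderEmbOfFin_mem _ _ _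
  have hedec : ∀ i j, i < j → e j < e i := by
    intro i j hij
    refine ((F.image f).orderEmbOfFin rfl).strictMono ?_
    exact (Fin.castLE_lt_castLE_iff hcard).2 (Fin.rev_lt_rev.2 hij)
  have hU : ∀ i, ∃ u ∈ F, f u = e i := fun i => Finset.mem_image.1 (heF i)
  choose U hUF hUe using hU
  have hg : ∀ i n : ℕ, ∃ k, n ≤ k ∧ ∀ h : i < m, ∀ t : Fin l, s (k + t) = U ⟨i, h⟩ t := by
    intro i n
    by_cases hi : i < m
    · obtain ⟨k, hk1, hk2⟩ := hF (U ⟨i, hi⟩) (hUF _) n
      exact ⟨k, hk1, fun _ => hk2⟩
    · exact ⟨n, le_refl n, fun h => absurd h hi⟩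
  choose g hg1 hg2 using hg
  let pos : ℕ → ℕ := fun n => Nat.rec (g 0 0) (fun i a => g (i + 1) (a + l)) n
  have hpos : ∀ i, pos i + l ≤ pos (i + 1) := fun i => hg1 (i + 1) (pos i + l)
  have hwin : ∀ i (h : i < m), ∀ t : Fin l, s (pos i + t) = U ⟨i, h⟩ t := by
    intro i h t
    cases i with
    | zero => exact hg2 0 0 h t
    | succ i => exact hg2 (i + 1) (pos i + l) h t
  have hmono : ∀ i, pos i ≤ pos (i + 1) := fun i => le_trans (Nat.le_add_right _ _) (hpos i)
  refine ⟨pos m, rcWin s 0 (pos 0), [], l, fun i => List.ofFn (U i),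
    fun i => rcWin s (pos i + l) (pos (i + 1) - pos i - l), fun i => by simp, ?_, ?_⟩
  · intro i j hij
    have h := hedec i j hij
    rw [← hUe i, ← hUe j] at h
    exact h
  · have e1 : (fun i : Fin m => List.ofFn (U i) ++
        rcWin s (pos i + l) (pos (i + 1) - pos i - l)) =
        fun i : Fin m => rcWin s (pos i) (pos (i + 1) - pos i) := by
      funext i
      rw [rc_ofFn s (pos i) (U i) (hwin i.1 i.2), rc_append]
      congr 1
      have := hpos i
      omega
    rw [e1, rc_flat s pos hmono m, List.append_nil]
    have h0 : pos 0 ≤ pos m := by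
      clear e1
      have h : ∀ m, pos 0 ≤ pos m := by
        intro m
        induction m with
        | zero => exact le_refl _
        | succ m ih => exact ih.trans (hmono m)
      exact h m
    have h1 := rc_append s 0 (pos 0) (pos m - pos 0)
    rw [Nat.zero_add, show pos 0 + (pos m - pos 0) = pos m by omega] at h1
    rw [h1]
    unfold rcWin
    refine List.map_congr_left ?_
    intro t _
    rw [Nat.zero_add]

end Pool.Agent.H30.PI
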