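import Pool.Agent.H30.PI.Spec

/-! # Finitely generated abelian groups are residually finite -/

set_option autoImplicit false

namespace Pool.Agent.H30.PI

theorem h71_res_int (z : ℤ) (hz : z ≠ 0) : ∃ k : ℕ, ∀ y : ℤ, z ≠ (2 ^ k : ℕ) • y := by
  obtain ⟨k, hk⟩ : ∃ k : ℕ, z.natAbs < 2 ^ k := ⟨z.natAbs, Nat.lt_two_pow_self⟩
  refine ⟨k, fun y h => ?_⟩
  have h1 : (2 ^ k : ℕ) ∣ z.natAbs := by
    rw [h, nsmul_eq_mul, Int.natAbs_mul]
    simp
  have h2 : 0 < z.natAbs := Int.natAbs_pos.2 hz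
  exact absurd (Nat.le_of_dvd h2 h1) (by omega)

/-- O. -/
theorem sres : SRes := by
  intro r C _ g hg x hx
  haveI : AddGroup.FG C := by
    refine (AddGroup.fg_iff).2 ⟨Set.range g, hg, Set.finite_range g⟩
  obtain ⟨n, ι, _, p, hp, e, ⟨f⟩⟩ := AddCommGroup.equiv_free_prod_directSum_zmod C
  have hfx : f x ≠ 0 := fun h => hx (f.map_eq_zero_iff.1 h)
  by_cases h1 : (f x).1 = 0
  · have h2 : (f x).2 ≠ 0 := fun h => hfx (Prod.ext h1 h)
    obtain ⟨i, hi⟩ : ∃ i, (f x).2 i ≠ 0 := by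
      by_contra hcon
      push Not at hcon
      exact h2 (DFinsupp.ext hcon)
    refine ⟨p i, e i, hp i, fun y hy => hi ?_⟩
    rw [hy, map_nsmul]
    show ((p i ^ e i) • (f y)).2 i = 0
    rw [Prod.smul_snd]
    show (p i ^ e i) • ((f y).2 i) = 0
    rw [nsmul_eq_mul]
    rw [ZMod.natCast_self, zero_mul]
  · obtain ⟨i, hi⟩ : ∃ i, (f x).1 i ≠ 0 := by
      by_contra hcon
      push Not at hcon
      exact h1 (Finsupp.ext hcon)
    obtain ⟨k, hk⟩ := h71_res_int _ hi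
    refine ⟨2, k, Nat.prime_two, fun y hy => hk ((f y).1 i) ?_⟩
    rw [hy, map_nsmul]
    show ((2 ^ k) • (f y)).1 i = _
    rw [Prod.smul_fst]
    rfl

end Pool.Agent.H30.PI
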