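import Pool.Agent.H30.PI.Spec

set_option autoImplicit false

/-! # Rational 2-groups in rings with a polynomial identity: Shirshov from the parts -/

namespace Pool.Agent.H30.PI

private theorem shir_pow {d e : ℕ} {u v : List (Fin d)} (h : PowW e u) : PowW e (u ++ v) := by
  obtain ⟨p, x, q, hx, rfl⟩ := h
  exact ⟨p, x, q ++ v, hx, by simp only [List.append_assoc]⟩

private theorem shir_div {d m : ℕ} {u v : List (Fin d)} (h : DivW m u) : DivW m (u ++ v) := by
  obtain ⟨p, q, l, x, y, h1, h2, rfl⟩ := h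
  exact ⟨p, q ++ v, l, x, y, h1, h2, by simp only [List.append_assoc]⟩

/-- F. Shirshov. -/
theorem sshir (hK : SKon) (hP : SPer) (hR : SRec) (hW : SPow) : SShir := by
  intro d m e
  by_contra hcon
  have hall : ∀ n, ∃ w : List (Fin d), n ≤ w.length ∧ (¬ PowW e w ∧ ¬ DivW m w) := by
    intro n
    by_contra hn
    refine hcon ⟨n, fun w hw => ?_⟩
    by_contra h
    exact hn ⟨w, hw, fun h1 => h (Or.inl h1), fun h1 => h (Or.inr h1)⟩
  obtain ⟨s, hs⟩ := hK d (fun w => ¬ PowW e w ∧ ¬ DivW m w)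
    (fun u v h => ⟨fun h1 => h.1 (shir_pow h1), fun h1 => h.2 (shir_div h1)⟩) hall
  by_cases H : ∀ (l : ℕ) (F : Finset (Fin l → Fin d)),
      (∀ u ∈ F, ∀ n, ∃ k, n ≤ k ∧ ∀ i : Fin l, s (k + i) = u i) → F.card < m
  · obtain ⟨n, p, hp, hper⟩ := hP d m s H
    obtain ⟨N, hN⟩ := hW d s n p hp hper e
    exact (hs N).1 hN
  · have H' : ∃ (l : ℕ) (F : Finset (Fin l → Fin d)),
        (∀ u ∈ F, ∀ n, ∃ k, n ≤ k ∧ ∀ i : Fin l, s (k + i) = u i) ∧ m ≤ F.card := by
      by_contra h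
      refine H fun l F hF => ?_
      by_contra hlt
      exact h ⟨l, F, hF, not_lt.mp hlt⟩
    obtain ⟨l, F, hF, hcard⟩ := H'
    obtain ⟨n, hn⟩ := hR d m l s F hF hcard
    exact (hs n).2 hn

end Pool.Agent.H30.PI
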