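import Pool.Agent.H30.PI.Spec

set_option autoImplicit false

/-! # Subdirect products of groups of bounded order -/

namespace Pool.Agent.H30.PI

private theorem sub_hom_finite (b : ℕ) (G : Type) [Group G] [Finite G] :
    Finite (G →* Equiv.Perm (Fin b)) := DFunLike.finite _

private theorem sub_card_hom (d b : ℕ) (G : Type) [Group G] [Finite G] (s : Fin d → G)
    (hs : Subgroup.closure (Set.range s) = ⊤) :
    Nat.card (G →* Equiv.Perm (Fin b)) ≤ b.factorial ^ d := by
  have h1 : Function.Injective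
      (fun (f : G →* Equiv.Perm (Fin b)) (i : Fin d) => f (s i)) := by
    intro f f' h
    apply MonoidHom.eq_of_eqOn_top
    rw [← hs]
    have h2 : Set.EqOn f f' (Set.range s) := by
      rintro _ ⟨i, rfl⟩
      exact congrFun h i
    exact MonoidHom.eqOn_closure h2
  have h3 := Nat.card_le_card_of_injective _ h1
  rwa [Nat.card_fun, Nat.card_perm, Nat.card_fin, Nat.card_fin] at h3

private theorem sub_sep (b : ℕ) (G : Type) [Group G] [Finite G] (N : Subgroup G)
    (hn : N.Normal) (hb : N.index ≤ b) (g : G) (hg : g ∉ N) :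
    ∃ f : G →* Equiv.Perm (Fin b), f g ≠ 1 := by
  have hb' : Nat.card (G ⧸ N) ≤ b := hb
  let e : (G ⧸ N) ↪ Fin b := (Finite.equivFin (G ⧸ N)).toEmbedding.trans
    ⟨Fin.castLE hb', Fin.castLE_injective hb'⟩
  refine ⟨(Equiv.Perm.viaEmbeddingHom e).comp (MulAction.toPermHom G (G ⧸ N)), ?_⟩
  intro h
  have h1 : MulAction.toPermHom G (G ⧸ N) g = 1 := by
    apply Equiv.Perm.viaEmbeddingHom_injective e
    rw [map_one]
    exact h
  have h2 : g • ((1 : G) : G ⧸ N) = ((1 : G) : G ⧸ N) := by
    have h3 := congrArg (fun p : Equiv.Perm (G ⧸ N) => p ((1 : G) : G ⧸ N)) h1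
    simpa using h3
  apply hg
  have h4 : ((g * 1 : G) : G ⧸ N) = ((1 : G) : G ⧸ N) := h2
  rw [mul_one] at h4
  exact (QuotientGroup.eq_one_iff g).mp h4

theorem ssub : SSub := by
  intro d b G _ _ s hs hN
  have hfin := sub_hom_finite b G
  have hinj : Function.Injective
      (fun (x : G) (f : G →* Equiv.Perm (Fin b)) => f x) := by
    intro x y h
    by_contra hxy
    have h1 : x * y⁻¹ ≠ 1 := fun h => hxy (mul_inv_eq_one.mp h)
    obtain ⟨N, hn, hb, hg⟩ := hN _ h1
    obtain ⟨f, hf⟩ := sub_sep b G N hn hb _ hg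
    apply hf
    have h2 : f x = f y := congrFun h f
    rw [map_mul, map_inv, h2, mul_inv_cancel]
  have h3 := Nat.card_le_card_of_injective _ hinj
  rw [Nat.card_fun, Nat.card_perm, Nat.card_fin] at h3
  exact h3.trans (Nat.pow_le_pow_right (Nat.factorial_pos b) (sub_card_hom d b G s hs))

end Pool.Agent.H30.PI
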