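import Pool.Agent.H30.PI.Spec

set_option autoImplicit false

/-! # Groups of exponent 2 in a ring where 2 is nilpotent -/

namespace Pool.Agent.H30.PI

private theorem two_comb {r : ℕ} {C : Type} [Ring C] (g : Fin r → C)
    (hg : AddSubgroup.closure (Set.range g) = ⊤) (x : C) : ∃ n : Fin r → ℤ, ∑ i, n i • g i = x := by
  have h1 : x ∈ Submodule.span ℤ (Set.range g) := by
    have h2 : x ∈ (Submodule.span ℤ (Set.range g)).toAddSubgroup := by
      rw [Submodule.span_int_eq_addSubgroupClosure, hg]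
      trivial
    exact h2
  exact (Submodule.mem_span_range_iff_exists_fun ℤ).1 h1

private theorem two_mod {r : ℕ} {C : Type} [Ring C] (g : Fin r → C) (n : Fin r → ℤ) (q : ℕ)
    (hq : 0 < q) : ∃ (a : Fin r → Fin q) (c : C),
      (∀ i, ((a i : ℕ) : ℤ) = n i % (q : ℤ)) ∧
      ∑ i, n i • g i = ∑ i, ((a i : ℕ) : ℤ) • g i + (q : C) * c := by
  have hq' : (0 : ℤ) < (q : ℤ) := by exact_mod_cast hq
  have hlt : ∀ i, (n i % (q : ℤ)).toNat < q := fun i => by
    have h1 := Int.emod_lt_of_pos (n i) hq'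
    have h2 := Int.emod_nonneg (n i) hq'.ne'
    omega
  refine ⟨fun i => ⟨(n i % (q : ℤ)).toNat, hlt i⟩, ∑ i, (n i / (q : ℤ)) • g i, fun i => ?_, ?_⟩
  · exact Int.toNat_of_nonneg (Int.emod_nonneg (n i) hq'.ne')
  · rw [Finset.mul_sum, ← Finset.sum_add_distrib]
    refine Finset.sum_congr rfl fun i _ => ?_
    have h3 : (((n i % (q : ℤ)).toNat : ℕ) : ℤ) = n i % (q : ℤ) :=
      Int.toNat_of_nonneg (Int.emod_nonneg (n i) hq'.ne')
    show n i • g i = (((n i % (q : ℤ)).toNat : ℕ) : ℤ) • g i + (q : C) * ((n i / (q : ℤ)) • g i)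
    rw [h3]
    have h4 : (q : C) * ((n i / (q : ℤ)) • g i) = ((q : ℤ) * (n i / (q : ℤ))) • g i := by
      rw [mul_smul, zsmul_eq_mul, zsmul_eq_mul, Int.cast_natCast]
    rw [h4, ← add_smul, Int.emod_add_mul_ediv]

theorem stwo : STwo := by
  intro r k C _ g hg h2 E hE
  classical
  -- the ring is finite
  have hfin : Finite C := by
    have hs : Function.Surjective (fun a : Fin r → Fin (2 ^ k) => ∑ i, ((a i : ℕ) : ℤ) • g i) := by
      intro x
      obtain ⟨n, hn⟩ := two_comb g hg x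
      obtain ⟨a, c, -, hc⟩ := two_mod g n (2 ^ k) (by positivity)
      refine ⟨a, ?_⟩
      show ∑ i, ((a i : ℕ) : ℤ) • g i = x
      rw [← hn, hc]
      push_cast
      rw [h2, zero_mul, add_zero]
    exact Finite.of_surjective _ hs
  have hfu : Finite Cˣ := Finite.of_injective (fun u : Cˣ => (u : C)) Units.val_injective
  have hfE : Finite E := inferInstance
  refine ⟨hfE, ?_⟩
  -- the kernel of doubling
  let D : C →+ C := AddMonoidHom.mulLeft (2 : C)
  have hker : Nat.card D.ker ≤ 2 ^ r := by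
    have h3 : Nat.card D.ker * Nat.card D.range = Nat.card D.range * D.range.index := by
      rw [AddSubgroup.card_mul_index, ← AddSubgroup.index_ker, AddSubgroup.card_mul_index]
    have h4 : 0 < Nat.card D.range := Nat.card_pos
    have h5 : Nat.card D.ker = D.range.index := by
      rw [mul_comm] at h3
      exact Nat.eq_of_mul_eq_mul_left h4 h3
    rw [h5, AddSubgroup.index]
    have hs : Function.Surjective
        (fun a : Fin r → Fin 2 => (QuotientAddGroup.mk (∑ i, ((a i : ℕ) : ℤ) • g i) : C ⧸ D.range)) := by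
      intro x
      obtain ⟨y, rfl⟩ := QuotientAddGroup.mk_surjective x
      obtain ⟨n, hn⟩ := two_comb g hg y
      obtain ⟨a, c, -, hc⟩ := two_mod g n 2 (by norm_num)
      refine ⟨a, ?_⟩
      refine QuotientAddGroup.eq.2 ⟨c, ?_⟩
      show (2 : C) * c = -(∑ i, ((a i : ℕ) : ℤ) • g i) + y
      rw [← hn, hc]
      push_cast
      abel
    calc Nat.card (C ⧸ D.range) ≤ Nat.card (Fin r → Fin 2) := Nat.card_le_card_of_surjective _ hs
      _ = 2 ^ r := by simp
  -- the residues mod 4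
  have hres : ∀ e : C, ∃ a : Fin r → Fin 4, ∃ c : C, e = ∑ i, ((a i : ℕ) : ℤ) • g i + 4 * c := by
    intro e
    obtain ⟨n, hn⟩ := two_comb g hg e
    obtain ⟨a, c, -, hc⟩ := two_mod g n 4 (by norm_num)
    refine ⟨a, c, ?_⟩
    rw [← hn, hc]
    push_cast
    rfl
  choose A c hA using hres
  let Φ : E → (Fin r → Fin 4) := fun e => A ((e : Cˣ) : C)
  let rep : (Fin r → Fin 4) → E := fun n => if h : ∃ e, Φ e = n then h.choose else 1
  have hrep : ∀ e, Φ (rep (Φ e)) = Φ e := by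
    intro e
    have h : ∃ e', Φ e' = Φ e := ⟨e, rfl⟩
    have h1 : rep (Φ e) = h.choose := dif_pos h
    rw [h1]
    exact h.choose_spec
  have hkey : ∀ e e' : E, Φ e' = Φ e → (((e'⁻¹ * e : E) : Cˣ) : C) - 1 ∈ D.ker := by
    intro e e' hee
    have h6 : ((e : Cˣ) : C) = ((e' : Cˣ) : C) + 4 * (c ((e : Cˣ) : C) - c ((e' : Cˣ) : C)) := by
      have h7 := hA ((e : Cˣ) : C)
      have h8 := hA ((e' : Cˣ) : C)
      have h9 : A ((e' : Cˣ) : C) = A ((e : Cˣ) : C) := hee
      rw [h9] at h8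
      set S := ∑ i, ((A ((e : Cˣ) : C) i : ℕ) : ℤ) • g i
      set c1 := c ((e : Cˣ) : C)
      set c2 := c ((e' : Cˣ) : C)
      rw [h7, h8]
      noncomm_ring
    set b : C := (((e' : Cˣ)⁻¹ : Cˣ) : C) * (c ((e : Cˣ) : C) - c ((e' : Cˣ) : C)) with hb
    have h10 : (((e'⁻¹ * e : E) : Cˣ) : C) = 1 + 4 * b := by
      have h11 : (((e'⁻¹ * e : E) : Cˣ) : C) = (((e' : Cˣ)⁻¹ : Cˣ) : C) * ((e : Cˣ) : C) := by
        simp
      rw [h11, h6, mul_add, Units.inv_mul, hb]
      congr 1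
      rw [← mul_assoc, ← mul_assoc]
      congr 1
      exact (Commute.ofNat_right _ 4).eq
    have h12 : (((e'⁻¹ * e : E) : Cˣ) : C) ^ 2 = 1 := by
      have h13 := hE ((e'⁻¹ * e : E) : Cˣ) (e'⁻¹ * e : E).2
      rw [← Units.val_pow_eq_pow_val, h13, Units.val_one]
    have h14 : 8 * b * (1 + 2 * b) = 0 := by
      rw [h10] at h12
      have h15 : (1 + 4 * b) ^ 2 = 1 + 8 * b * (1 + 2 * b) := by noncomm_ring
      rw [h15] at h12
      exact left_eq_add.1 h12.symm
    have h16 : IsUnit (1 + 2 * b) := by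
      apply IsNilpotent.isUnit_one_add
      refine ⟨k, ?_⟩
      rw [(Commute.ofNat_left 2 b).mul_pow, h2, zero_mul]
    have h17 : 8 * b = 0 := (h16.mul_left_eq_zero).1 h14
    rw [AddMonoidHom.mem_ker]
    show (2 : C) * ((((e'⁻¹ * e : E) : Cˣ) : C) - 1) = 0
    rw [h10, add_sub_cancel_left, ← h17, ← mul_assoc]
    norm_num
  let Ψ : E → (Fin r → Fin 4) × D.ker := fun e =>
    (Φ e, ⟨_, hkey e (rep (Φ e)) (hrep e)⟩)
  have hinj : Function.Injective Ψ := by
    intro e1 e2 h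
    have h18 : Φ e1 = Φ e2 := congrArg Prod.fst h
    have h19 : ((((rep (Φ e1))⁻¹ * e1 : E) : Cˣ) : C) - 1 = ((((rep (Φ e2))⁻¹ * e2 : E) : Cˣ) : C) - 1 :=
      congrArg (fun z => ((Prod.snd z : D.ker) : C)) h
    have h20 : (rep (Φ e1))⁻¹ * e1 = (rep (Φ e2))⁻¹ * e2 :=
      Subtype.ext (Units.ext (sub_left_injective h19))
    rw [h18] at h20
    exact mul_left_cancel h20
  calc Nat.card E ≤ Nat.card ((Fin r → Fin 4) × D.ker) := Nat.card_le_card_of_injective _ hinj
    _ = 4 ^ r * Nat.card D.ker := by rw [Nat.card_prod]; simp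
    _ ≤ 4 ^ r * 2 ^ r := Nat.mul_le_mul_left _ hker

end Pool.Agent.H30.PI
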