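import Pool.Agent.H30.PI.Spec

set_option autoImplicit false

/-! # MP_cc8356_al, row A: values of words -/

namespace Pool.Agent.H30.PI

private theorem h73_val {d : ℕ} (w : List (Fin d)) :
    val w = (w.map (fun a : Fin d => (a : ℕ))).foldl (fun n a => n * (d + 1) + (a + 1)) 0 := by
  have h : (do let a ← w; pure (a : ℕ) : List ℕ) = w.map (fun a : Fin d => (a : ℕ)) := by
    induction w with
    | nil => rfl
    | cons a w ih =>
      rw [List.map_cons, ← ih]
      rfl
  exact congrArg (List.foldl (fun n a => n * (d + 1) + (a + 1)) 0) h

private theorem h73_foldl {d : ℕ} (v : List (Fin d)) : ∀ n : ℕ,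
    (v.map (fun a : Fin d => (a : ℕ))).foldl (fun n a => n * (d + 1) + (a + 1)) n =
      n * (d + 1) ^ v.length + val v := by
  induction v with
  | nil => intro n; simp [h73_val]
  | cons a v ih =>
    intro n
    rw [List.map_cons, List.foldl_cons, ih, h73_val (a :: v), List.map_cons, List.foldl_cons, ih,
      List.length_cons]
    ring

private theorem h73_cons {d : ℕ} (a : Fin d) (v : List (Fin d)) :
    val (a :: v) = ((a : ℕ) + 1) * (d + 1) ^ v.length + val v := by
  rw [h73_val, List.map_cons, List.foldl_cons, h73_foldl]
  ring

private theorem h73_append {d : ℕ} (u v : List (Fin d)) :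
    val (u ++ v) = val u * (d + 1) ^ v.length + val v := by
  rw [h73_val, List.map_append, List.foldl_append, h73_foldl, ← h73_val]

private theorem h73_lt {d : ℕ} (u : List (Fin d)) : val u < (d + 1) ^ u.length := by
  induction u with
  | nil => simp [val]
  | cons a u ih =>
    rw [h73_cons, List.length_cons, pow_succ]
    have ha : (a : ℕ) + 2 ≤ d + 1 := by have := a.isLt; omega
    calc ((a : ℕ) + 1) * (d + 1) ^ u.length + val u
        < ((a : ℕ) + 1) * (d + 1) ^ u.length + (d + 1) ^ u.length := Nat.add_lt_add_left ih _
      _ = ((a : ℕ) + 2) * (d + 1) ^ u.length := by ring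
      _ ≤ (d + 1) * (d + 1) ^ u.length := Nat.mul_le_mul_right _ ha
      _ = (d + 1) ^ u.length * (d + 1) := by ring

private theorem h73_inj {d : ℕ} (u : List (Fin d)) : ∀ v : List (Fin d),
    u.length = v.length → val u = val v → u = v := by
  induction u with
  | nil =>
    intro v hl _
    exact (List.length_eq_zero_iff.mp hl.symm).symm
  | cons a u ih =>
    intro v hl hv
    cases v with
    | nil => simp at hl
    | cons b v =>
      have hl' : u.length = v.length := by simpa using hl
      rw [h73_cons, h73_cons, hl'] at hv
      have h1 : val u < (d + 1) ^ v.length := hl' ▸ h73_lt u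
      have h2 := h73_lt v
      have key : ∀ x y s t : ℕ, s < (d + 1) ^ v.length →
          (x + 1) * (d + 1) ^ v.length + s = (y + 1) * (d + 1) ^ v.length + t → ¬ x < y := by
        intro x y s t hs h hxy
        have h3 : (x + 2) * (d + 1) ^ v.length ≤ (y + 1) * (d + 1) ^ v.length :=
          Nat.mul_le_mul_right _ (by omega)
        have h4 : (x + 2) * (d + 1) ^ v.length =
            (x + 1) * (d + 1) ^ v.length + (d + 1) ^ v.length := by ring
        omega
      have hab : (a : ℕ) = b :=
        le_antisymm (not_lt.mp (key _ _ _ _ h2 hv.symm)) (not_lt.mp (key _ _ _ _ h1 hv))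
      have hab' : a = b := Fin.ext hab
      subst hab'
      rw [ih v hl' (Nat.add_left_cancel hv)]

/-- A. Values of words. -/
theorem sval : SVal := by
  intro d
  refine ⟨h73_append, h73_lt, ?_, ?_, fun u v => h73_inj u v⟩
  · intro u v h
    cases v with
    | nil => simp at h
    | cons a v =>
      rw [List.length_cons] at h
      rw [h73_cons]
      have h1 := h73_lt u
      have h2 : (d + 1) ^ u.length ≤ (d + 1) ^ v.length :=
        Nat.pow_le_pow_right (Nat.succ_pos d) (by omega)
      have h3 : 1 * (d + 1) ^ v.length ≤ ((a : ℕ) + 1) * (d + 1) ^ v.length :=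
        Nat.mul_le_mul_right _ (by omega)
      omega
  · intro p u v q q' hl hq h
    rw [h73_append, h73_append, h73_append, h73_append, List.length_append, List.length_append,
      hl, hq]
    have h1 : val q < (d + 1) ^ q'.length := hq ▸ h73_lt q
    have h2 : (val u + 1) * (d + 1) ^ q'.length ≤ val v * (d + 1) ^ q'.length :=
      Nat.mul_le_mul_right _ h
    have h3 : (val u + 1) * (d + 1) ^ q'.length =
        val u * (d + 1) ^ q'.length + (d + 1) ^ q'.length := by ring
    omega

end Pool.Agent.H30.PI
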