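import Pool.Agent.H30.PI.Asm
import Pool.Agent.H30.PI.Lift
import Pool.Agent.H30.PI.Mat
import Pool.Agent.H30.PI.Val
import Pool.Agent.H30.PI.KonX
import Pool.Agent.H30.PI.Per
import Pool.Agent.H30.PI.Rec
import Pool.Agent.H30.PI.PwrX
import Pool.Agent.H30.PI.Shir
import Pool.Agent.H30.PI.Prm
import Pool.Agent.H30.PI.Exs
import Pool.Agent.H30.PI.Span
import Pool.Agent.H30.PI.Two
import Pool.Agent.H30.PI.Odd
import Pool.Agent.H30.PI.Mx
import Pool.Agent.H30.PI.Prime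
import Pool.Agent.H30.PI.Sub
import Pool.Agent.H30.PI.Res
import Pool.Agent.H30.PI.Quo

set_option autoImplicit false

namespace Pool.Agent.H30.PI

universe u

theorem fin : SFin :=
  sfin (sspan sval (sshir skonX sper (srec sval) spowX) (sperm sval) sex)
    (sprime stwo sodd smax) ssub sres squo

/-- The general bound. -/
theorem bound (d m : ℕ) :
    ∃ N : ℕ, ∀ (G : Type) [Group G] [Finite G],
      IsPGroup 2 G →
      (∀ x : G, IsConj x (x ^ 3)) →
      (∃ S : Finset G, S.card ≤ d ∧ Subgroup.closure (S : Set G) = ⊤) →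
      ∀ (B : Type u) [Ring B] (φ : G →* B), Function.Injective φ →
      (∃ a : Equiv.Perm (Fin m) → ℤ, a 1 = 1 ∧
        ∀ y : Fin m → G, ∑ σ, a σ • (List.ofFn fun i => φ (y (σ i))).prod = 0) →
      Nat.card G ≤ N := by
  obtain ⟨N, hN⟩ := fin d m
  refine ⟨N, ?_⟩
  intro G _ _ hp hc hS B _ φ hinj hid
  obtain ⟨B', iB', φ', hinj', hid'⟩ := exists_small φ hinj m hid
  obtain ⟨S, hSc, hS⟩ := hS
  -- a list of `d` generators
  obtain ⟨s, hs⟩ : ∃ s : Fin d → G, Subgroup.closure (Set.range s) = ⊤ := by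
    let f : Fin d → G := fun i =>
      if h : (i : ℕ) < S.card then (S.equivFin.symm ⟨i, h⟩ : G) else 1
    refine ⟨f, ?_⟩
    rw [eq_top_iff, ← hS, Subgroup.closure_le]
    intro x hx
    apply Subgroup.subset_closure
    have hx' : x ∈ S := hx
    refine ⟨⟨(S.equivFin ⟨x, hx'⟩ : ℕ), lt_of_lt_of_le (S.equivFin ⟨x, hx'⟩).2 hSc⟩, ?_⟩
    show (if h : ((S.equivFin ⟨x, hx'⟩ : ℕ)) < S.card then
      (S.equivFin.symm ⟨(S.equivFin ⟨x, hx'⟩ : ℕ), h⟩ : G) else 1) = x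
    rw [dif_pos (S.equivFin ⟨x, hx'⟩).2]
    simp
  exact hN G B' φ' s hp hc hs hinj' hid'

end Pool.Agent.H30.PI
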