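import Mathlib

set_option autoImplicit false

/-! # Groups with `x ~ x ^ e` satisfying a law that is not a law of all metabelian groups -/

namespace Pool.Agent.H30.PI.Law

open Finsupp
open scoped commutatorElement

universe v

abbrev F := FreeGroup ℕ

abbrev G0 := ℕ →₀ ℤ

abbrev V := (G0 × ℕ) →₀ ℤ

/-- The action of a letter on the pairs (position, flow). -/
noncomputable def letter (i : ℕ) : Equiv.Perm (G0 × V) where
  toFun q := (q.1 + single i 1, q.2 + single (q.1, i) 1)
  invFun q := (q.1 - single i 1, q.2 - single (q.1 - single i 1, i) 1)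
  left_inv q := by
    simp only [add_sub_cancel_right, Prod.mk.eta]
  right_inv q := by
    simp only [sub_add_cancel, Prod.mk.eta]

noncomputable def act : F →* Equiv.Perm (G0 × V) := FreeGroup.lift letter

noncomputable def pos (w : F) : G0 := (act w (0, 0)).1

noncomputable def fl (w : F) : V := (act w (0, 0)).2

theorem act_zero (w : F) : act w (0, 0) = (pos w, fl w) := rfl

theorem act_of (i : ℕ) (q : G0 × V) :
    act (FreeGroup.of i) q = (q.1 + single i 1, q.2 + single (q.1, i) 1) := by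
  rw [act, FreeGroup.lift_apply_of]
  rfl

theorem act_of_inv (i : ℕ) (q : G0 × V) :
    act (FreeGroup.of i)⁻¹ q = (q.1 - single i 1, q.2 - single (q.1 - single i 1, i) 1) := by
  rw [map_inv, act, FreeGroup.lift_apply_of]
  rfl

theorem act_mul (a b : F) (q : G0 × V) : act (a * b) q = act a (act b q) := by
  rw [map_mul, Equiv.Perm.mul_apply]

/-! ### Translations -/

noncomputable def shift (g : G0) : V →+ V :=
  Finsupp.mapDomain.addMonoidHom (fun p : G0 × ℕ => (g + p.1, p.2))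

theorem shift_single (g h : G0) (i : ℕ) (m : ℤ) :
    shift g (single (h, i) m) = single (g + h, i) m := by
  show Finsupp.mapDomain _ _ = _
  rw [Finsupp.mapDomain_single]

noncomputable def tr (g : G0) (S : V) (q : G0 × V) : G0 × V := (g + q.1, S + shift g q.2)

theorem act_tr (g : G0) (S : V) (w : F) : ∀ q, act w (tr g S q) = tr g S (act w q) := by
  induction w using FreeGroup.induction_on with
  | C1 => intro q; simp
  | of i =>
    intro q
    show act (FreeGroup.of i) _ = tr g S (act (FreeGroup.of i) q)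
    rw [act_of, act_of]
    simp only [tr, map_add, shift_single, add_assoc]
  | inv_of i _ =>
    intro q
    show act (FreeGroup.of i)⁻¹ _ = tr g S (act (FreeGroup.of i)⁻¹ q)
    rw [act_of_inv, act_of_inv]
    simp only [tr, map_sub, shift_single, add_sub_assoc]
  | mul a b ha hb =>
    intro q
    rw [act_mul, act_mul, hb, ha]

theorem act_eq (w : F) (g : G0) (S : V) :
    act w (g, S) = (g + pos w, S + shift g (fl w)) := by
  have h1 := act_tr g S w (0, 0)
  have h2 : tr g S (0, 0) = (g, S) := by simp [tr]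
  rw [h2, act_zero] at h1
  exact h1

theorem pos_mul (a b : F) : pos (a * b) = pos b + pos a := by
  show (act (a * b) (0, 0)).1 = _
  rw [act_mul, act_zero, act_eq]

theorem fl_mul (a b : F) : fl (a * b) = fl b + shift (pos b) (fl a) := by
  show (act (a * b) (0, 0)).2 = _
  rw [act_mul, act_zero, act_eq]

theorem pos_of (i : ℕ) : pos (FreeGroup.of i) = single i 1 := by
  show (act _ (0, 0)).1 = _
  rw [act_of]; simp

theorem fl_of (i : ℕ) : fl (FreeGroup.of i) = single (0, i) 1 := by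
  show (act _ (0, 0)).2 = _
  rw [act_of]; simp

theorem pos_of_inv (i : ℕ) : pos (FreeGroup.of i)⁻¹ = - single i 1 := by
  show (act _ (0, 0)).1 = _
  rw [act_of_inv]; simp

theorem fl_of_inv (i : ℕ) : fl (FreeGroup.of i)⁻¹ = - single (- single i 1, i) 1 := by
  show (act _ (0, 0)).2 = _
  rw [act_of_inv]; simp

/-! ### Words with trivial flow are in the second derived subgroup -/

/-- the position as a homomorphism -/
noncomputable def P : F →* Multiplicative G0 where
  toFun w := Multiplicative.ofAdd (pos w)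
  map_one' := by
    have : pos 1 = 0 := by show (act 1 (0, 0)).1 = 0; simp
    rw [this]; rfl
  map_mul' a b := by
    rw [pos_mul, add_comm, ofAdd_add]

theorem P_of (i : ℕ) : P (FreeGroup.of i) = Multiplicative.ofAdd (single i 1) := by
  show Multiplicative.ofAdd (pos _) = _
  rw [pos_of]

theorem toFinsupp_eq (w : F) :
    FreeAbelianGroup.toFinsupp (Additive.ofMul (Abelianization.of w) : FreeAbelianGroup ℕ) = pos w := by
  have h : (AddMonoidHom.toMultiplicative (FreeAbelianGroup.toFinsupp (X := ℕ))).comp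
      (Abelianization.of : F →* Abelianization F) = P := by
    apply FreeGroup.ext_hom
    intro i
    rw [P_of]
    show Multiplicative.ofAdd (FreeAbelianGroup.toFinsupp (FreeAbelianGroup.of i)) = _
    rw [FreeAbelianGroup.toFinsupp_of]
  have h2 := DFunLike.congr_fun h w
  exact Multiplicative.ofAdd.injective h2

theorem P_surj : Function.Surjective P := by
  intro g
  obtain ⟨a, ha⟩ := (FreeAbelianGroup.equivFinsupp ℕ).surjective (Multiplicative.toAdd g)
  obtain ⟨w, hw⟩ := QuotientGroup.mk_surjective (s := commutator F) (Additive.toMul a)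
  refine ⟨w, ?_⟩
  have h1 := toFinsupp_eq w
  have h2 : (Additive.ofMul (Abelianization.of w) : FreeAbelianGroup ℕ) = a := by
    apply Additive.toMul.injective
    exact hw
  rw [h2] at h1
  have h3 : pos w = Multiplicative.toAdd g := by rw [← h1]; exact ha
  show Multiplicative.ofAdd (pos w) = g
  rw [h3]; rfl

theorem mem_comm (w : F) (h : pos w = 0) : w ∈ derivedSeries F 1 := by
  rw [derivedSeries_one, ← Abelianization.ker_of, MonoidHom.mem_ker]
  have h1 := toFinsupp_eq w
  rw [h] at h1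
  have h2 : (FreeAbelianGroup.equivFinsupp ℕ) (Additive.ofMul (Abelianization.of w)) = 0 := h1
  have h3 := (FreeAbelianGroup.equivFinsupp ℕ).injective (h2.trans (map_zero _).symm)
  exact Additive.ofMul.injective h3

/-- a section of the position -/
noncomputable def sec (g : G0) : F := if g = 0 then 1 else (P_surj (Multiplicative.ofAdd g)).choose

theorem pos_sec (g : G0) : pos (sec g) = g := by
  unfold sec
  split_ifs with h
  · rw [h]; show (act 1 (0, 0)).1 = 0; simp
  · exact Multiplicative.ofAdd.injective (P_surj (Multiplicative.ofAdd g)).choose_spec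

theorem sec_zero : sec 0 = 1 := by simp [sec]

theorem pos_inv (w : F) : pos w⁻¹ = - pos w := by
  have h := map_inv P w
  exact Multiplicative.ofAdd.injective h

abbrev Q := F ⧸ derivedSeries F 2

def K : Subgroup Q := (derivedSeries F 1).map (QuotientGroup.mk' (derivedSeries F 2))

theorem K_comm (a b : K) : a * b = b * a := by
  obtain ⟨a, x, hx, rfl⟩ := a
  obtain ⟨b, y, hy, rfl⟩ := b
  apply Subtype.ext
  show (QuotientGroup.mk' _ x) * (QuotientGroup.mk' _ y) = (QuotientGroup.mk' _ y) * (QuotientGroup.mk' _ x)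
  rw [← map_mul, ← map_mul]
  show ((x * y : F) : Q) = ((y * x : F) : Q)
  rw [QuotientGroup.eq]
  have h1 : ⁅y⁻¹, x⁻¹⁆ ∈ derivedSeries F 2 :=
    Subgroup.commutator_mem_commutator (inv_mem hy) (inv_mem hx)
  have h2 : (x * y)⁻¹ * (y * x) = ⁅y⁻¹, x⁻¹⁆ := by
    rw [commutatorElement_def]; group
  rw [h2]
  exact h1

noncomputable instance : CommGroup K := { (inferInstance : Group K) with mul_comm := K_comm }

noncomputable def lab (p : G0 × ℕ) : K :=
  ⟨QuotientGroup.mk' _ ((sec (p.1 + single p.2 1))⁻¹ * FreeGroup.of p.2 * sec p.1),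
    Subgroup.mem_map_of_mem _ (mem_comm _ (by
      rw [pos_mul, pos_mul, pos_inv, pos_sec, pos_sec, pos_of]
      abel))⟩

noncomputable def bet : V →+ Additive K :=
  Finsupp.liftAddHom fun p => zmultiplesHom (Additive K) (Additive.ofMul (lab p))

theorem bet_single (p : G0 × ℕ) : bet (single p 1) = Additive.ofMul (lab p) := by
  rw [bet, Finsupp.liftAddHom_apply_single]
  simp

noncomputable def Th (q : G0 × V) : Q := (QuotientGroup.mk' _ (sec q.1)) * ((Additive.toMul (bet q.2) : K) : Q)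

theorem Th_letter (i : ℕ) (q : G0 × V) :
    Th (q.1 + single i 1, q.2 + single (q.1, i) 1) = (FreeGroup.of i : Q) * Th q := by
  have h1 : ((Additive.toMul (bet (q.2 + single (q.1, i) 1)) : K) : Q) =
      (lab (q.1, i) : Q) * ((Additive.toMul (bet q.2) : K) : Q) := by
    rw [map_add, bet_single, add_comm]
    rfl
  unfold Th
  rw [h1]
  have h2 : ((lab (q.1, i) : K) : Q) = (QuotientGroup.mk' (derivedSeries F 2) (sec (q.1 + single i 1)))⁻¹ *
      (FreeGroup.of i : Q) * QuotientGroup.mk' (derivedSeries F 2) (sec q.1) := by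
    show QuotientGroup.mk' _ _ = _
    rw [map_mul, map_mul, map_inv]
    rfl
  rw [h2]
  group

theorem Th_act (w : F) : ∀ q, Th (act w q) = (w : Q) * Th q := by
  induction w using FreeGroup.induction_on with
  | C1 =>
    intro q
    rw [map_one, Equiv.Perm.one_apply, QuotientGroup.mk_one, one_mul]
  | of i =>
    intro q
    show Th (act (FreeGroup.of i) q) = _
    rw [act_of, Th_letter]
  | inv_of i _ =>
    intro q
    show Th (act (FreeGroup.of i)⁻¹ q) = ((FreeGroup.of i)⁻¹ : F) * Th q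
    have h1 := Th_letter i (act (FreeGroup.of i)⁻¹ q)
    rw [← act_of, ← act_mul, mul_inv_cancel, map_one, Equiv.Perm.one_apply] at h1
    rw [h1, ← mul_assoc]
    have : (((FreeGroup.of i)⁻¹ : F) : Q) * ((FreeGroup.of i : F) : Q) = 1 := by
      rw [← QuotientGroup.mk_mul, inv_mul_cancel]; rfl
    rw [this, one_mul]
  | mul a b ha hb =>
    intro q
    rw [act_mul, ha, hb, QuotientGroup.mk_mul, mul_assoc]

theorem mem_second (w : F) (h : pos w = 0) (h2 : fl w = 0) : w ∈ derivedSeries F 2 := by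
  have h3 := Th_act w (0, 0)
  rw [act_zero, h, h2] at h3
  have h4 : (w : Q) = 1 := by
    have h5 : (w : Q) * Th (0, 0) = 1 * Th (0, 0) := by rw [← h3, one_mul]
    exact mul_right_cancel h5
  exact (QuotientGroup.eq_one_iff w).1 h4

/-! ### Evaluation of flows -/

/-- the height of a position -/
noncomputable def Dd (d : ℕ → ℤ) : G0 →+ ℤ := Finsupp.liftAddHom fun i => AddMonoidHom.mulRight (d i)

theorem Dd_single (d : ℕ → ℤ) (i : ℕ) (m : ℤ) : Dd d (single i m) = m * d i := by
  rw [Dd, Finsupp.liftAddHom_apply_single]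
  rfl

theorem Dd_add (d d' : ℕ → ℤ) (g : G0) : Dd (d + d') g = Dd d g + Dd d' g := by
  have h : Dd (d + d') = Dd d + Dd d' := by
    apply Finsupp.addHom_ext
    intro i m
    rw [AddMonoidHom.add_apply, Dd_single, Dd_single, Dd_single, Pi.add_apply, mul_add]
  rw [h]; rfl

theorem Dd_zero (g : G0) : Dd 0 g = 0 := by
  have h : Dd 0 = 0 := by
    apply Finsupp.addHom_ext
    intro i m
    rw [Dd_single]
    simp
  rw [h]; rfl

noncomputable def ev (e : ℕ) (d : ℕ → ℤ) (i0 : ℕ) : V →+ ℚ :=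
  Finsupp.liftAddHom fun p => if p.2 = i0 then zmultiplesHom ℚ ((e : ℚ) ^ (Dd d p.1)) else 0

theorem ev_single (e : ℕ) (d : ℕ → ℤ) (i0 : ℕ) (g : G0) (i : ℕ) (m : ℤ) :
    ev e d i0 (single (g, i) m) = if i = i0 then (m : ℚ) * (e : ℚ) ^ (Dd d g) else 0 := by
  rw [ev, Finsupp.liftAddHom_apply_single]
  show (if i = i0 then zmultiplesHom ℚ ((e : ℚ) ^ (Dd d g)) else 0) m = _
  split_ifs
  · simp
  · rfl

theorem ev_shift (e : ℕ) (he : 2 ≤ e) (d : ℕ → ℤ) (i0 : ℕ) (g : G0) (S : V) :
    ev e d i0 (shift g S) = (e : ℚ) ^ (Dd d g) * ev e d i0 S := by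
  have he0 : (e : ℚ) ≠ 0 := by
    have : 0 < e := by omega
    exact_mod_cast this.ne'
  have h : (ev e d i0).comp (shift g) = (AddMonoidHom.mulLeft ((e : ℚ) ^ (Dd d g))).comp (ev e d i0) := by
    apply Finsupp.addHom_ext
    rintro ⟨h, i⟩ m
    rw [AddMonoidHom.comp_apply, AddMonoidHom.comp_apply, shift_single, ev_single, ev_single]
    show _ = (e : ℚ) ^ (Dd d g) * _
    split_ifs
    · rw [map_add, zpow_add₀ he0]; ring
    · simp
  exact DFunLike.congr_fun h S

noncomputable def chi (e : ℕ) (he : 2 ≤ e) (g : G0) : Multiplicative (ℕ → ℤ) →* ℚ where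
  toFun d := (e : ℚ) ^ (Dd (Multiplicative.toAdd d) g)
  map_one' := by
    show (e : ℚ) ^ (Dd 0 g) = 1
    rw [Dd_zero, zpow_zero]
  map_mul' a b := by
    have he0 : (e : ℚ) ≠ 0 := by
      have : 0 < e := by omega
      exact_mod_cast this.ne'
    show (e : ℚ) ^ (Dd (Multiplicative.toAdd a + Multiplicative.toAdd b) g) = _
    rw [Dd_add, zpow_add₀ he0]

theorem chi_inj (e : ℕ) (he : 2 ≤ e) : Function.Injective (chi e he) := by
  intro g g' h
  ext i
  have h1 := DFunLike.congr_fun h (Multiplicative.ofAdd (Pi.single i 1))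
  have h2 : ∀ g : G0, Dd (Pi.single i 1) g = g i := by
    intro g
    have h3 : Dd (Pi.single i 1) = Finsupp.applyAddHom i := by
      apply Finsupp.addHom_ext
      intro j m
      rw [Dd_single, Finsupp.applyAddHom_apply]
      by_cases hij : j = i
      · subst hij; simp
      · rw [Pi.single_apply, if_neg hij, Finsupp.single_apply, if_neg hij, mul_zero]
    rw [h3]; rfl
  have h4 : (e : ℚ) ^ (g i) = (e : ℚ) ^ (g' i) := by
    have h5 : chi e he g (Multiplicative.ofAdd (Pi.single i 1)) = (e : ℚ) ^ (g i) := by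
      show (e : ℚ) ^ (Dd (Pi.single i 1) g) = _
      rw [h2]
    have h6 : chi e he g' (Multiplicative.ofAdd (Pi.single i 1)) = (e : ℚ) ^ (g' i) := by
      show (e : ℚ) ^ (Dd (Pi.single i 1) g') = _
      rw [h2]
    rw [← h5, ← h6, h1]
  have h7 : (1 : ℚ) < (e : ℚ) := by exact_mod_cast he
  exact zpow_right_injective₀ (by linarith) h7.ne' h4

noncomputable def TT (i0 : ℕ) : V →+ (G0 →₀ ℚ) :=
  Finsupp.liftAddHom fun p =>
    if p.2 = i0 then (Finsupp.singleAddHom p.1).comp (Int.castAddHom ℚ) else 0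

theorem TT_single (i0 : ℕ) (g : G0) (i : ℕ) (m : ℤ) :
    TT i0 (single (g, i) m) = if i = i0 then single g (m : ℚ) else 0 := by
  rw [TT, Finsupp.liftAddHom_apply_single]
  show (if i = i0 then (Finsupp.singleAddHom g).comp (Int.castAddHom ℚ) else 0) m = _
  split_ifs
  · rfl
  · rfl

theorem TT_apply (i0 : ℕ) (S : V) (g : G0) : TT i0 S g = (S (g, i0) : ℚ) := by
  have h : (Finsupp.applyAddHom g).comp (TT i0) =
      (Int.castAddHom ℚ).comp (Finsupp.applyAddHom (g, i0)) := by
    apply Finsupp.addHom_ext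
    rintro ⟨h, i⟩ m
    rw [AddMonoidHom.comp_apply, AddMonoidHom.comp_apply, TT_single]
    show (if i = i0 then single h (m : ℚ) else 0 : G0 →₀ ℚ) g = ((single (h, i) m : V) (g, i0) : ℚ)
    rw [Finsupp.single_apply]
    by_cases hi : i = i0
    · subst hi
      rw [if_pos rfl, Finsupp.single_apply]
      by_cases hg : h = g
      · subst hg; simp
      · rw [if_neg hg, if_neg (by simpa using hg)]; simp
    · rw [if_neg hi, if_neg (by simp [hi])]; simp
  exact DFunLike.congr_fun h S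

theorem lin_ev (e : ℕ) (he : 2 ≤ e) (i0 : ℕ) (S : V) (d : ℕ → ℤ) :
    Finsupp.linearCombination ℚ (fun g : G0 => (chi e he g : Multiplicative (ℕ → ℤ) → ℚ)) (TT i0 S)
      (Multiplicative.ofAdd d) = ev e d i0 S := by
  let L : (G0 →₀ ℚ) →+ ℚ :=
    { toFun := fun T => Finsupp.linearCombination ℚ
        (fun g : G0 => (chi e he g : Multiplicative (ℕ → ℤ) → ℚ)) T (Multiplicative.ofAdd d)
      map_zero' := by simp
      map_add' := fun a b => by simp }
  have h : L.comp (TT i0) = ev e d i0 := by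
    apply Finsupp.addHom_ext
    rintro ⟨h, i⟩ m
    rw [AddMonoidHom.comp_apply, TT_single, ev_single]
    split_ifs
    · show Finsupp.linearCombination ℚ
        (fun g : G0 => (chi e he g : Multiplicative (ℕ → ℤ) → ℚ)) (single h (m : ℚ))
        (Multiplicative.ofAdd d) = _
      rw [Finsupp.linearCombination_single]
      rfl
    · exact map_zero L
  exact DFunLike.congr_fun h S

theorem exists_ev_ne (e : ℕ) (he : 2 ≤ e) (S : V) (hS : S ≠ 0) :
    ∃ (d : ℕ → ℤ) (i0 : ℕ), ev e d i0 S ≠ 0 := by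
  by_contra hcon
  push Not at hcon
  apply hS
  ext ⟨g, i0⟩
  have hli : LinearIndependent ℚ (fun g : G0 => (chi e he g : Multiplicative (ℕ → ℤ) → ℚ)) :=
    (linearIndependent_monoidHom (Multiplicative (ℕ → ℤ)) ℚ).comp (chi e he) (chi_inj e he)
  rw [linearIndependent_iff] at hli
  have h1 := hli (TT i0 S) (by
    funext d
    have := lin_ev e he i0 S (Multiplicative.toAdd d)
    rw [hcon] at this
    exact this)
  have h2 := TT_apply i0 S g
  rw [h1] at h2
  have h3 : ((S (g, i0) : ℤ) : ℚ) = 0 := by rw [← h2]; rfl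
  exact_mod_cast h3

/-! ### Substitution in a group -/

section grp

variable {G : Type v} [Group G]

theorem conj_zpow' {e : ℕ} (x t : G) (h : t⁻¹ * x * t = x ^ e) (n : ℕ) :
    t ^ (-(n : ℤ)) * x * t ^ (n : ℤ) = x ^ (e ^ n) := by
  induction n with
  | zero => simp
  | succ n ih =>
    have h1 : t ^ (-((n + 1 : ℕ) : ℤ)) * x * t ^ ((n + 1 : ℕ) : ℤ) =
        t⁻¹ * (t ^ (-(n : ℤ)) * x * t ^ (n : ℤ)) * t := by
      push_cast
      rw [neg_add, zpow_add, zpow_add, zpow_neg_one, zpow_one]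
      have h2 : t ^ (-(n : ℤ)) * t⁻¹ = t⁻¹ * t ^ (-(n : ℤ)) := by
        rw [← zpow_neg_one, ← zpow_add, ← zpow_add, add_comm]
      rw [h2]
      group
    rw [h1, ih]
    have h3 : t⁻¹ * x ^ e ^ n * t = (t⁻¹ * x * t) ^ (e ^ n) := by
      have := conj_pow (i := e ^ n) (a := t⁻¹) (b := x)
      rw [inv_inv] at this
      rw [this]
    rw [h3, h, ← pow_mul, pow_succ']

/-- `z R = t ^ R x t ^ (-R)` -/
def zz (x t : G) (R : ℤ) : G := t ^ R * x * t ^ (-R)

theorem zz_move (x t : G) (R n N : ℤ) : zz x t (R + n) ^ N * t ^ n = t ^ n * zz x t R ^ N := by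
  have h1 : zz x t (R + n) = t ^ n * zz x t R * (t ^ n)⁻¹ := by
    unfold zz
    rw [add_comm R n, neg_add, zpow_add, zpow_add, zpow_neg t n]
    have h2 : (t ^ n)⁻¹ * t ^ (-R) = t ^ (-R) * (t ^ n)⁻¹ := by
      rw [← zpow_neg, ← zpow_add, ← zpow_add, add_comm]
    rw [h2]
    group
  rw [h1, conj_zpow]
  group

theorem x_eq {e : ℕ} (x t : G) (h : t⁻¹ * x * t = x ^ e) (R : ℕ) :
    x = zz x t R ^ ((e : ℤ) ^ R) := by
  have h1 : t ^ (R : ℤ) * (t ^ (-(R : ℤ)) * x * t ^ (R : ℤ)) * t ^ (-(R : ℤ)) = x := by group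
  rw [conj_zpow' x t h R] at h1
  have h2 : zz x t R ^ ((e : ℤ) ^ R) = t ^ (R : ℤ) * x ^ (e ^ R) * t ^ (-(R : ℤ)) := by
    unfold zz
    rw [zpow_neg, conj_zpow]
    congr 2
    rw [← zpow_natCast]
    push_cast
    rfl
  rw [h2, h1]

end grp

/-- the substitution -/
def rho {G : Type v} [Group G] (x t : G) (d : ℕ → ℤ) (i0 : ℕ) : F →* G :=
  FreeGroup.lift fun i => t ^ d i * x ^ (if i = i0 then 1 else 0 : ℕ)

def Pw (e : ℕ) (d : ℕ → ℤ) (i0 : ℕ) (w : F) : Prop :=
  ∃ R0 : ℕ, ∀ R : ℤ, (R0 : ℤ) ≤ R → ∃ N : ℤ, (N : ℚ) = (e : ℚ) ^ R * ev e d i0 (fl w) ∧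
    ∀ (G : Type v) [Group G] (x t : G), t⁻¹ * x * t = x ^ e →
      rho x t d i0 w = t ^ (Dd d (pos w)) * zz x t R ^ N

theorem Pw_mul (e : ℕ) (he : 2 ≤ e) (d : ℕ → ℤ) (i0 : ℕ) (a b : F) (ha : Pw.{v} e d i0 a)
    (hb : Pw.{v} e d i0 b) : Pw.{v} e d i0 (a * b) := by
  have he0 : (e : ℚ) ≠ 0 := by
    have : 0 < e := by omega
    exact_mod_cast this.ne'
  obtain ⟨R1, h1⟩ := ha
  obtain ⟨R2, h2⟩ := hb
  refine ⟨R1 + R2 + (Dd d (pos b)).natAbs, fun R hR => ?_⟩
  rw [Nat.cast_add, Nat.cast_add] at hR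
  have hn : -(((Dd d (pos b)).natAbs : ℕ) : ℤ) ≤ Dd d (pos b) := by omega
  obtain ⟨N1, hN1, hG1⟩ := h1 (R + Dd d (pos b)) (by omega)
  obtain ⟨N2, hN2, hG2⟩ := h2 R (by omega)
  refine ⟨N1 + N2, ?_, ?_⟩
  · rw [fl_mul, map_add, ev_shift e he]
    push_cast
    rw [hN1, hN2, zpow_add₀ he0]
    ring
  · intro G _ x t h
    rw [map_mul, hG1 G x t h, hG2 G x t h, pos_mul, map_add, add_comm (Dd d (pos b)), zpow_add, zpow_add]
    have h3 := zz_move x t R (Dd d (pos b)) N1
    calc t ^ (Dd d (pos a)) * zz x t (R + Dd d (pos b)) ^ N1 * (t ^ (Dd d (pos b)) * zz x t R ^ N2)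
        = t ^ (Dd d (pos a)) * (zz x t (R + Dd d (pos b)) ^ N1 * t ^ (Dd d (pos b))) * zz x t R ^ N2 := by
          group
      _ = _ := by rw [h3]; group

theorem Pw_one (e : ℕ) (d : ℕ → ℤ) (i0 : ℕ) : Pw.{v} e d i0 1 := by
  have h0 : pos 1 = 0 := by show (act 1 (0, 0)).1 = 0; simp
  have h1 : fl 1 = 0 := by show (act 1 (0, 0)).2 = 0; simp
  refine ⟨0, fun R _ => ⟨0, by rw [h1]; simp, ?_⟩⟩
  intro G _ x t _
  rw [h0]; simp

theorem Pw_of (e : ℕ) (d : ℕ → ℤ) (i0 i : ℕ) : Pw.{v} e d i0 (FreeGroup.of i) := by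
  refine ⟨0, fun R hR => ?_⟩
  obtain ⟨R, rfl⟩ := Int.eq_ofNat_of_zero_le (by simpa using hR)
  refine ⟨if i = i0 then (e : ℤ) ^ R else 0, ?_, ?_⟩
  · rw [fl_of, ev_single]
    split_ifs
    · simp
    · simp
  · intro G _ x t h
    rw [pos_of, Dd_single, one_mul]
    have h1 : rho x t d i0 (FreeGroup.of i) = t ^ d i * x ^ (if i = i0 then 1 else 0 : ℕ) := by
      rw [rho, FreeGroup.lift_apply_of]
    rw [h1]
    congr 1
    split_ifs
    · rw [pow_one]; exact x_eq x t h R
    · simp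

theorem Pw_inv_of (e : ℕ) (he : 2 ≤ e) (d : ℕ → ℤ) (i0 i : ℕ) : Pw.{v} e d i0 (FreeGroup.of i)⁻¹ := by
  have he0 : (e : ℚ) ≠ 0 := by
    have : 0 < e := by omega
    exact_mod_cast this.ne'
  refine ⟨(d i).natAbs, fun R hR => ?_⟩
  obtain ⟨R', hR'⟩ := Int.eq_ofNat_of_zero_le (a := R - d i) (by omega)
  refine ⟨if i = i0 then -(e : ℤ) ^ R' else 0, ?_, ?_⟩
  · rw [fl_of_inv, map_neg, ev_single]
    split_ifs
    · rw [← Finsupp.single_neg, Dd_single]
      have h3 : (e : ℚ) ^ R = (e : ℚ) ^ R' * (e : ℚ) ^ (d i) := by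
        rw [← zpow_natCast, ← zpow_add₀ he0]
        congr 1
        omega
      rw [h3]
      push_cast
      rw [mul_neg, one_mul, mul_assoc, ← zpow_add₀ he0]
      simp
    · simp
  · intro G _ x t h
    rw [pos_of_inv, map_neg, Dd_single, one_mul]
    have h1 : rho x t d i0 (FreeGroup.of i)⁻¹ = (t ^ d i * x ^ (if i = i0 then 1 else 0 : ℕ))⁻¹ := by
      rw [map_inv, rho, FreeGroup.lift_apply_of]
    rw [h1]
    split_ifs
    · rw [pow_one, mul_inv_rev, ← zpow_neg]
      have h2 : x⁻¹ = zz x t R' ^ (-(e : ℤ) ^ R') := by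
        rw [zpow_neg, ← x_eq x t h R']
      have h4 : (R' : ℤ) = R + -(d i) := by omega
      rw [h2, h4]
      exact zz_move x t R (-(d i)) _
    · simp

theorem Pw_all (e : ℕ) (he : 2 ≤ e) (d : ℕ → ℤ) (i0 : ℕ) (w : F) : Pw.{v} e d i0 w := by
  induction w using FreeGroup.induction_on with
  | C1 => exact Pw_one e d i0
  | of i => exact Pw_of e d i0 i
  | inv_of i _ => exact Pw_inv_of e he d i0 i
  | mul a b ha hb => exact Pw_mul e he d i0 a b ha hb

theorem pow_natAbs_one {G : Type v} [Group G] (x : G) (N : ℤ) (h : x ^ N = 1) : x ^ N.natAbs = 1 := by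
  rcases Int.natAbs_eq N with h1 | h1
  · rw [h1, zpow_natCast] at h
    exact h
  · rw [h1, zpow_neg, zpow_natCast, inv_eq_one] at h
    exact h

theorem subst_one {G : Type v} [Group G] (x : G) (i : ℕ) (w : F) :
    FreeGroup.lift (fun j => if j = i then x else 1) w = x ^ (pos w i) := by
  have h : FreeGroup.lift (fun j => if j = i then x else 1) =
      (zpowersHom G x).comp ((AddMonoidHom.toMultiplicative (Finsupp.applyAddHom i)).comp P) := by
    apply FreeGroup.ext_hom
    intro j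
    rw [FreeGroup.lift_apply_of, MonoidHom.comp_apply, MonoidHom.comp_apply, P_of]
    show _ = x ^ ((single j 1 : G0) i)
    rw [Finsupp.single_apply]
    split_ifs <;> simp
  exact DFunLike.congr_fun h w

end Pool.Agent.H30.PI.Law

namespace Pool.Agent.H30.PI

open Law

universe v

/-- Groups with `x ~ x ^ e` in which a word outside the second derived subgroup is a law have bounded
exponent; no finiteness is assumed. -/
theorem law_exp (e : ℕ) (he : 2 ≤ e) (w : FreeGroup ℕ) (hw : w ∉ derivedSeries (FreeGroup ℕ) 2) :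
    ∃ N : ℕ, 0 < N ∧ ∀ (G : Type v) [Group G], (∀ x : G, IsConj x (x ^ e)) →
      (∀ f : FreeGroup ℕ →* G, f w = 1) → ∀ x : G, x ^ N = 1 := by
  have he0 : (e : ℚ) ≠ 0 := by
    have : 0 < e := by omega
    exact_mod_cast this.ne'
  by_cases hp : pos w = 0
  · have hf : fl w ≠ 0 := fun h => hw (mem_second w hp h)
    obtain ⟨d, i0, hev⟩ := exists_ev_ne e he (fl w) hf
    obtain ⟨R0, h1⟩ := Pw_all.{v} e he d i0 w
    obtain ⟨N, hN, hG⟩ := h1 R0 le_rfl
    have hN0 : N ≠ 0 := by
      rintro rfl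
      have : (e : ℚ) ^ (R0 : ℤ) * ev e d i0 (fl w) = 0 := by rw [← hN]; simp
      rcases mul_eq_zero.1 this with h | h
      · exact zpow_ne_zero _ he0 h
      · exact hev h
    refine ⟨N.natAbs, Int.natAbs_pos.2 hN0, fun G _ hc hl x => ?_⟩
    obtain ⟨t, ht⟩ := isConj_iff.1 (hc x)
    have h2 := hG G x t⁻¹ (by rw [inv_inv]; exact ht)
    rw [hl, hp, map_zero, zpow_zero, one_mul] at h2
    apply pow_natAbs_one
    have h3 : zz x t⁻¹ (R0 : ℤ) = t⁻¹ ^ (R0 : ℤ) * x * (t⁻¹ ^ (R0 : ℤ))⁻¹ := by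
      unfold zz
      rw [zpow_neg]
    rw [h3, conj_zpow] at h2
    have h4 : x ^ N = (t⁻¹ ^ (R0 : ℤ))⁻¹ * (t⁻¹ ^ (R0 : ℤ) * x ^ N * (t⁻¹ ^ (R0 : ℤ))⁻¹) *
        t⁻¹ ^ (R0 : ℤ) := by group
    rw [h4, ← h2]
    group
  · obtain ⟨i, hi⟩ : ∃ i, pos w i ≠ 0 := by
      by_contra hcon
      push Not at hcon
      exact hp (Finsupp.ext hcon)
    refine ⟨(pos w i).natAbs, Int.natAbs_pos.2 hi, fun G _ _ hl x => ?_⟩
    apply pow_natAbs_one
    rw [← subst_one, hl]

end Pool.Agent.H30.PI
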