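import Pool.Agent.H30.PI.SpecE
import Pool.Agent.H64.RE.Cent

set_option autoImplicit false

/-! # Rational 2-groups in rings with a polynomial identity, part M: the local bound -/

namespace Pool.Agent.H30.PI

open Pool.Agent.H64.RE (card_le' vand)

/-- M. Groups in rings where a prime is nilpotent. -/
theorem sprimeE (hT : STwo) (hO : SOdd) (hM : SMax) : SPrimeE := by
  intro r e₀ he₀
  obtain ⟨n, hn⟩ : ∃ n : ℕ, n = 4 ^ r * 2 ^ r := ⟨_, rfl⟩
  refine ⟨((vand e₀ (n ^ 1)).natAbs ^ (n ^ 1)) *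
      ((vand e₀ (n ^ 1)).natAbs ^ (n ^ 1)) ^ ((vand e₀ (n ^ 1)).natAbs ^ (n ^ 1)), ?_⟩
  intro H C _ _ _ p k hp h3 hpp hpk hg hψ
  obtain ⟨g, hg⟩ := hg
  obtain ⟨ψ, hψ⟩ := hψ
  obtain ⟨A, hAn, hA, hAc⟩ := hM H hp
  refine card_le' hp he₀ h3 A ⊥ hAn hA hAc 1 n (by rw [Subgroup.card_bot]) ?_
  let V : Subgroup H :=
    { carrier := {a | a ∈ A ∧ a ^ 2 = 1}
      one_mem' := ⟨one_mem _, one_pow _⟩
      mul_mem' := by
        rintro a b ⟨ha, ha2⟩ ⟨hb, hb2⟩
        refine ⟨mul_mem ha hb, ?_⟩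
        rw [(show Commute a b from hA a ha b hb).mul_pow, ha2, hb2, one_mul]
      inv_mem' := by
        rintro a ⟨ha, ha2⟩
        exact ⟨inv_mem ha, by rw [inv_pow, ha2, inv_one]⟩ }
  have hE : ∀ e ∈ V.map ψ.toHomUnits, e ^ 2 = 1 := by
    rintro e ⟨a, ha, rfl⟩
    rw [← map_pow, ha.2, map_one]
  have hc : Finite (V.map ψ.toHomUnits) ∧ Nat.card (V.map ψ.toHomUnits) ≤ n := by
    by_cases h2 : p = 2
    · subst h2
      rw [hn]
      exact hT r k C g hg (by exact_mod_cast hpk) _ hE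
    · obtain ⟨h4, h5⟩ := hO r k p hpp h2 C g hg hpk _ hE
      refine ⟨h4, h5.trans ?_⟩
      rw [hn]
      exact Nat.le_mul_of_pos_left _ (pow_pos (by norm_num) _)
  have := hc.1
  have hinj : Function.Injective ψ.toHomUnits := by
    intro x y hxy
    refine hψ ?_
    have h := congrArg (fun u : Cˣ => (u : C)) hxy
    simpa only [MonoidHom.coe_toHomUnits] using h
  refine (Nat.card_le_card_of_injective
    (fun a : {a : H // a ∈ A ∧ a ^ 2 = 1 ∧ ∀ x ∈ (⊥ : Subgroup H), x * a = a * x} =>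
      (⟨ψ.toHomUnits a.1, Subgroup.mem_map_of_mem _
        (show a.1 ∈ V from ⟨a.2.1, a.2.2.1⟩)⟩ : V.map ψ.toHomUnits)) ?_).trans hc.2
  intro a b hab
  have h := congrArg Subtype.val hab
  exact Subtype.ext (hinj h)

end Pool.Agent.H30.PI
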