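import Pool.Agent.H30.PI.SpecE

/-!
# Rational 2-groups in rings with a polynomial identity, row I: the span is boundedly generated
-/

set_option autoImplicit false

namespace Pool.Agent.H30.PI

section

variable {d : ℕ} {M : Type} [Monoid M] (s : Fin d → M)

private theorem spanE_ev_nil : ev s [] = 1 := rfl

private theorem spanE_ev_append (u v : List (Fin d)) : ev s (u ++ v) = ev s u * ev s v := by
  simp only [ev, List.map_append, List.prod_append]

private theorem spanE_ev_flatten (L : List (List (Fin d))) :
    ev s L.flatten = (L.map (ev s)).prod := by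
  induction L with
  | nil => rfl
  | cons a L ih => rw [List.flatten_cons, spanE_ev_append, ih, List.map_cons, List.prod_cons]

private theorem spanE_ev_pow (n : ℕ) (u : List (Fin d)) :
    ev s (List.replicate n u).flatten = ev s u ^ n := by
  rw [spanE_ev_flatten, List.map_replicate, List.prod_replicate]

end

/-- in a finite group every element is the value of a word -/
private theorem spanE_word {d : ℕ} {G : Type} [Group G] [Finite G] (s : Fin d → G)
    (h : Subgroup.closure (Set.range s) = ⊤) (x : G) : ∃ w, ev s w = x := by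
  have hmul : ∀ a b : G, (∃ w, ev s w = a) → (∃ w, ev s w = b) → ∃ w, ev s w = a * b := by
    rintro _ _ ⟨u, rfl⟩ ⟨v, rfl⟩
    exact ⟨u ++ v, spanE_ev_append s u v⟩
  have hpow : ∀ (a : G) (n : ℕ), (∃ w, ev s w = a) → ∃ w, ev s w = a ^ n := by
    rintro _ n ⟨u, rfl⟩
    exact ⟨(List.replicate n u).flatten, spanE_ev_pow s n u⟩
  have hx : x ∈ Subgroup.closure (Set.range s) := by
    rw [h]
    exact Subgroup.mem_top _
  induction hx using Subgroup.closure_induction with
  | mem y hy =>
    obtain ⟨i, rfl⟩ := hy
    exact ⟨[i], by simp only [ev, List.map_cons, List.map_nil, List.prod_cons, List.prod_nil,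
      mul_one]⟩
  | one => exact ⟨[], rfl⟩
  | mul a b _ _ ha hb => exact hmul a b ha hb
  | inv a _ ha =>
    have h1 : a ^ (orderOf a - 1) = a⁻¹ := by
      have h2 : 0 < orderOf a := orderOf_pos a
      rw [eq_inv_iff_mul_eq_one, ← pow_succ, Nat.sub_add_cancel h2, pow_orderOf_eq_one]
    rw [← h1]
    exact hpow a _ ha

/-- solving an identity for the leading term -/
private theorem spanE_solve {m : ℕ} {B : Type} [Ring B] (A : AddSubgroup B)
    (a : Equiv.Perm (Fin m) → ℤ) (ha : a 1 = 1) (f : Equiv.Perm (Fin m) → B)
    (h : ∑ σ, a σ • f σ = 0) (hf : ∀ σ, σ ≠ 1 → f σ ∈ A) : f 1 ∈ A := by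
  classical
  rw [← Finset.add_sum_erase Finset.univ _ (Finset.mem_univ (1 : Equiv.Perm (Fin m))), ha,
    one_smul] at h
  rw [eq_neg_of_add_eq_zero_left h]
  refine A.neg_mem (A.sum_mem fun σ hσ => ?_)
  exact A.zsmul_mem (hf σ (Finset.ne_of_mem_erase hσ)) _

/-- **Row I.** The span is boundedly generated. -/
theorem sspanE (hA : SVal) (hS : SShir) (hP : SPerm) (hE : SExE) : SSpanE := by
  classical
  intro d m e he
  obtain ⟨N, hN⟩ := hS d m (exE e m 1)
  have hfin : Finite {w : List (Fin d) // w.length < N} := List.finite_length_lt (Fin d) N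
  refine ⟨Nat.card {w : List (Fin d) // w.length < N}, ?_⟩
  intro G B _ _ _ φ s hs hc hid
  obtain ⟨a, ha1, ha⟩ := hid
  have eqv := Finite.equivFin {w : List (Fin d) // w.length < N}
  refine ⟨fun i => ev s (eqv.symm i).1, ?_⟩
  apply le_antisymm
  swap
  · apply AddSubgroup.closure_mono
    rintro _ ⟨i, rfl⟩
    exact ⟨_, rfl⟩
  rw [AddSubgroup.closure_le]
  rintro _ ⟨x, rfl⟩
  obtain ⟨w, rfl⟩ := spanE_word s hs x
  rw [SetLike.mem_coe]
  induction hn : val w using Nat.strong_induction_on generalizing w with
  | _ n ih =>
    by_cases hw : w.length < N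
    · apply AddSubgroup.subset_closure
      refine ⟨eqv ⟨w, hw⟩, ?_⟩
      simp only [Equiv.symm_apply_apply]
    · rcases hN w (not_lt.1 hw) with ⟨p, u, q, hu, rfl⟩ | ⟨p, q, l, u, v, hl, hd, rfl⟩
      · obtain ⟨t, ht⟩ := isConj_iff.1 (hc (ev s u))
        have h1 := ha fun i => ev s u ^ (i : ℕ) * t
        have h2 : ∑ σ, a σ • φ (ev s (p ++ (List.replicate (exE e m σ) u).flatten ++ q)) = 0 := by
          have h3 : ∀ σ : Equiv.Perm (Fin m),
              a σ • φ (ev s (p ++ (List.replicate (exE e m σ) u).flatten ++ q)) =
                φ (ev s p) * (a σ • φ (List.ofFn fun i =>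
                  ev s u ^ ((σ i : Fin m) : ℕ) * t).prod) * φ ((t ^ m)⁻¹ * ev s q) := by
            intro σ
            rw [(hE e m he).2 G (ev s u) t ht σ, mul_smul_comm, smul_mul_assoc, ← map_mul, ← map_mul,
              spanE_ev_append, spanE_ev_append, spanE_ev_pow]
            congr 2
            group
          rw [Finset.sum_congr rfl fun σ _ => h3 σ, ← Finset.sum_mul, ← Finset.mul_sum, h1,
            mul_zero, zero_mul]
        refine spanE_solve _ a ha1
          (fun σ => φ (ev s (p ++ (List.replicate (exE e m σ) u).flatten ++ q))) h2 fun σ hσ => ?_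
        refine ih _ ?_ _ rfl
        rw [← hn]
        apply (hA d).2.2.1
        have h4 := (hE e m he).1 σ hσ
        have h5 : 0 < u.length := List.length_pos_iff.2 hu
        have h6 : ∀ n : ℕ, ((List.replicate n u).flatten).length = n * u.length := by
          intro n
          rw [List.length_flatten, List.map_replicate, List.sum_replicate, smul_eq_mul]
        rw [List.length_append, List.length_append, List.length_append, List.length_append,
          h6, h6]
        have h7 := Nat.mul_lt_mul_of_pos_right h4 h5
        omega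
      · have h1 := ha fun i => ev s (u i ++ v i)
        have h2 : ∑ σ, a σ • φ (ev s (p ++
            (List.ofFn fun i => u (σ i) ++ v (σ i)).flatten ++ q)) = 0 := by
          have h3 : ∀ σ : Equiv.Perm (Fin m),
              a σ • φ (ev s (p ++ (List.ofFn fun i => u (σ i) ++ v (σ i)).flatten ++ q)) =
                φ (ev s p) * (a σ • φ (List.ofFn fun i =>
                  ev s (u (σ i) ++ v (σ i))).prod) * φ (ev s q) := by
            intro σ
            rw [mul_smul_comm, smul_mul_assoc, ← map_mul, ← map_mul,
              spanE_ev_append, spanE_ev_append, spanE_ev_flatten, List.map_ofFn]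
            rfl
          rw [Finset.sum_congr rfl fun σ _ => h3 σ, ← Finset.sum_mul, ← Finset.mul_sum, h1,
            mul_zero, zero_mul]
        refine spanE_solve _ a ha1
          (fun σ => φ (ev s (p ++ (List.ofFn fun i => u (σ i) ++ v (σ i)).flatten ++ q))) h2
          fun σ hσ => ?_
        refine ih _ ?_ _ rfl
        rw [← hn]
        exact hP d m l p q u v hl hd σ hσ

end Pool.Agent.H30.PI
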