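import Mathlib

set_option autoImplicit false

/-! # Rational 2-groups in rings with a polynomial identity: statements of the parts -/

namespace Pool.Agent.H30.PI

/-- The value of a word. -/
def ev {d : ℕ} {M : Type} [Monoid M] (s : Fin d → M) (w : List (Fin d)) : M := (w.map s).prod

/-- The number with the digits `a + 1` (`a` in `w`) in base `d + 1`. -/
def val {d : ℕ} (w : List (Fin d)) : ℕ := w.foldl (fun n a => n * (d + 1) + (a + 1)) 0

/-- Words which contain the power `u ^ e` of a nonempty word `u`. -/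
def PowW {d : ℕ} (e : ℕ) (w : List (Fin d)) : Prop :=
  ∃ p u q : List (Fin d), u ≠ [] ∧ w = p ++ (List.replicate e u).flatten ++ q

/-- Words which contain a product of `m` words `u i ++ v i` where the `u i` have the same length and are
strictly decreasing. -/
def DivW {d : ℕ} (m : ℕ) (w : List (Fin d)) : Prop :=
  ∃ (p q : List (Fin d)) (l : ℕ) (u v : Fin m → List (Fin d)),
    (∀ i, (u i).length = l) ∧ (∀ i j, i < j → val (u j) < val (u i)) ∧
    w = p ++ (List.ofFn fun i => u i ++ v i).flatten ++ q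

/-- A. Values of words. -/
def SVal : Prop := ∀ d : ℕ,
  (∀ u v : List (Fin d), val (u ++ v) = val u * (d + 1) ^ v.length + val v) ∧
  (∀ u : List (Fin d), val u < (d + 1) ^ u.length) ∧
  (∀ u v : List (Fin d), u.length < v.length → val u < val v) ∧
  (∀ p u v q q' : List (Fin d), u.length = v.length → q.length = q'.length → val u < val v →
    val (p ++ (u ++ q)) < val (p ++ (v ++ q'))) ∧
  (∀ u v : List (Fin d), u.length = v.length → val u = val v → u = v)

/-- B. König: an infinite word from arbitrarily long words. -/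
def SKon : Prop := ∀ (d : ℕ) (P : List (Fin d) → Prop),
  (∀ u v, P (u ++ v) → P u) → (∀ n, ∃ w, n ≤ w.length ∧ P w) →
    ∃ s : ℕ → Fin d, ∀ n, P ((List.range n).map s)

/-- C. An infinite word with few recurrent factors of each length is periodic from some point on. -/
def SPer : Prop := ∀ (d m : ℕ) (s : ℕ → Fin d),
  (∀ (l : ℕ) (F : Finset (Fin l → Fin d)),
    (∀ u ∈ F, ∀ n, ∃ k, n ≤ k ∧ ∀ i : Fin l, s (k + i) = u i) → F.card < m) →
  ∃ n p, 0 < p ∧ ∀ k, n ≤ k → s (k + p) = s k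

/-- D. An infinite word with many recurrent factors contains a divided product. -/
def SRec : Prop := ∀ (d m l : ℕ) (s : ℕ → Fin d) (F : Finset (Fin l → Fin d)),
  (∀ u ∈ F, ∀ n, ∃ k, n ≤ k ∧ ∀ i : Fin l, s (k + i) = u i) → m ≤ F.card →
    ∃ n, DivW m ((List.range n).map s)

/-- E. A word which is periodic from some point on contains powers. -/
def SPow : Prop := ∀ (d : ℕ) (s : ℕ → Fin d) (n p : ℕ), 0 < p → (∀ k, n ≤ k → s (k + p) = s k) →
  ∀ e, ∃ N, PowW e ((List.range N).map s)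

/-- F. Shirshov. -/
def SShir : Prop := ∀ d m e : ℕ, ∃ N : ℕ, ∀ w : List (Fin d), N ≤ w.length → PowW e w ∨ DivW m w

/-- G. Permuting a divided product gives a smaller value. -/
def SPerm : Prop := ∀ (d m l : ℕ) (p q : List (Fin d)) (u v : Fin m → List (Fin d)),
  (∀ i, (u i).length = l) → (∀ i j, i < j → val (u j) < val (u i)) → ∀ σ : Equiv.Perm (Fin m), σ ≠ 1 →
    val (p ++ (List.ofFn fun i => u (σ i) ++ v (σ i)).flatten ++ q) <
      val (p ++ (List.ofFn fun i => u i ++ v i).flatten ++ q)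

/-- The exponent. -/
def ex (m : ℕ) (σ : Equiv.Perm (Fin m)) : ℕ := ∑ i : Fin m, 3 ^ (i : ℕ) * (σ i : ℕ)

/-- H. Products of the elements `x ^ i * t` and their exponents. -/
def SEx : Prop := ∀ m : ℕ,
  (∀ σ : Equiv.Perm (Fin m), σ ≠ 1 → ex m σ < ex m 1) ∧
  (∀ (G : Type) [Group G] (x t : G), t * x * t⁻¹ = x ^ 3 → ∀ σ : Equiv.Perm (Fin m),
    (List.ofFn fun i => x ^ ((σ i : Fin m) : ℕ) * t).prod = x ^ ex m σ * t ^ m)

/-- The identity of degree `m` on the image of `G`. -/
def Iden {G B : Type} [Group G] [Ring B] (m : ℕ) (φ : G →* B) : Prop :=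
  ∃ a : Equiv.Perm (Fin m) → ℤ, a 1 = 1 ∧
    ∀ y : Fin m → G, ∑ σ, a σ • φ (List.ofFn fun i => y (σ i)).prod = 0

/-- I. The span of `G` is generated by a bounded number of elements. -/
def SSpan : Prop := ∀ d m : ℕ, ∃ r : ℕ, ∀ (G B : Type) [Group G] [Finite G] [Ring B] (φ : G →* B)
  (s : Fin d → G), Subgroup.closure (Set.range s) = ⊤ → (∀ x : G, IsConj x (x ^ 3)) → Iden m φ →
    ∃ g : Fin r → G, AddSubgroup.closure (Set.range φ) = AddSubgroup.closure (Set.range fun i => φ (g i))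

/-- J. Groups of exponent 2 in a ring where 2 is nilpotent. -/
def STwo : Prop := ∀ (r k : ℕ) (C : Type) [Ring C] (g : Fin r → C),
  AddSubgroup.closure (Set.range g) = ⊤ → (2 : C) ^ k = 0 → ∀ E : Subgroup Cˣ, (∀ e ∈ E, e ^ 2 = 1) →
    Finite E ∧ Nat.card E ≤ 4 ^ r * 2 ^ r

/-- K. Groups of exponent 2 in a ring where an odd prime is nilpotent. -/
def SOdd : Prop := ∀ (r k p : ℕ), p.Prime → p ≠ 2 → ∀ (C : Type) [Ring C] (g : Fin r → C),
  AddSubgroup.closure (Set.range g) = ⊤ → (p : C) ^ k = 0 → ∀ E : Subgroup Cˣ, (∀ e ∈ E, e ^ 2 = 1) →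
    Finite E ∧ Nat.card E ≤ 2 ^ r

/-- L. A maximal abelian normal subgroup of a finite p-group contains its centralizer. -/
def SMax : Prop := ∀ (G : Type) [Group G] [Finite G], IsPGroup 2 G →
  ∃ A : Subgroup G, A.Normal ∧ (∀ a ∈ A, ∀ b ∈ A, a * b = b * a) ∧
    ∀ g : G, (∀ a ∈ A, g * a = a * g) → g ∈ A

/-- M. Groups in rings where a prime is nilpotent. -/
def SPrime : Prop := ∀ r : ℕ, ∃ b : ℕ, ∀ (H C : Type) [Group H] [Finite H] [Ring C] (p k : ℕ),
  IsPGroup 2 H → (∀ x : H, IsConj x (x ^ 3)) → p.Prime → (p : C) ^ k = 0 →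
  (∃ g : Fin r → C, AddSubgroup.closure (Set.range g) = ⊤) → (∃ ψ : H →* C, Function.Injective ψ) →
    Nat.card H ≤ b

/-- N. Subdirect products of groups of bounded order. -/
def SSub : Prop := ∀ (d b : ℕ) (G : Type) [Group G] [Finite G] (s : Fin d → G),
  Subgroup.closure (Set.range s) = ⊤ →
  (∀ g : G, g ≠ 1 → ∃ N : Subgroup G, N.Normal ∧ N.index ≤ b ∧ g ∉ N) →
    Nat.card G ≤ b.factorial ^ (b.factorial ^ d)

/-- O. Finitely generated abelian groups are residually finite. -/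
def SRes : Prop := ∀ (r : ℕ) (C : Type) [AddCommGroup C] (g : Fin r → C),
  AddSubgroup.closure (Set.range g) = ⊤ → ∀ x : C, x ≠ 0 →
    ∃ p k : ℕ, p.Prime ∧ ∀ y : C, x ≠ (p ^ k) • y

/-- P. The quotient of a ring by a prime power. -/
def SQuo : Prop := ∀ (r n : ℕ) (G B : Type) [Group G] [Ring B] (φ : G →* B) (g : Fin r → G),
  AddSubgroup.closure (Set.range φ) = AddSubgroup.closure (Set.range fun i => φ (g i)) →
    ∃ (C : Type) (_ : Ring C) (ψ : G →* C), (n : C) = 0 ∧
      AddSubgroup.closure (Set.range fun i => ψ (g i)) = ⊤ ∧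
      ∀ x : G, ψ x = 1 → ∃ y ∈ AddSubgroup.closure (Set.range φ), φ x - 1 = n • y

/-- The final statement. -/
def SFin : Prop := ∀ d m : ℕ, ∃ N : ℕ, ∀ (G B : Type) [Group G] [Finite G] [Ring B] (φ : G →* B)
  (s : Fin d → G), IsPGroup 2 G → (∀ x : G, IsConj x (x ^ 3)) → Subgroup.closure (Set.range s) = ⊤ →
  Function.Injective φ → Iden m φ → Nat.card G ≤ N

end Pool.Agent.H30.PI
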