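import Pool.Agent.H30.PI.Spec

set_option autoImplicit false

/-! # 2-groups with `x` conjugate to `x ^ e` in rings with a polynomial identity -/

namespace Pool.Agent.H30.PI

/-- The exponent. -/
def exE (e m : ℕ) (σ : Equiv.Perm (Fin m)) : ℕ := ∑ i : Fin m, e ^ (i : ℕ) * (σ i : ℕ)

/-- H with `e` in place of 3. -/
def SExE : Prop := ∀ e m : ℕ, 2 ≤ e →
  (∀ σ : Equiv.Perm (Fin m), σ ≠ 1 → exE e m σ < exE e m 1) ∧
  (∀ (G : Type) [Group G] (x t : G), t * x * t⁻¹ = x ^ e → ∀ σ : Equiv.Perm (Fin m),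
    (List.ofFn fun i => x ^ ((σ i : Fin m) : ℕ) * t).prod = x ^ exE e m σ * t ^ m)

/-- I with `e` in place of 3. -/
def SSpanE : Prop := ∀ d m e : ℕ, 2 ≤ e → ∃ r : ℕ, ∀ (G B : Type) [Group G] [Finite G] [Ring B]
  (φ : G →* B) (s : Fin d → G), Subgroup.closure (Set.range s) = ⊤ → (∀ x : G, IsConj x (x ^ e)) →
    Iden m φ →
    ∃ g : Fin r → G, AddSubgroup.closure (Set.range φ) = AddSubgroup.closure (Set.range fun i => φ (g i))

/-- M with `e` in place of 3. -/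
def SPrimeE : Prop := ∀ r e : ℕ, 2 ≤ e → ∃ b : ℕ, ∀ (H C : Type) [Group H] [Finite H] [Ring C] (p k : ℕ),
  IsPGroup 2 H → (∀ x : H, IsConj x (x ^ e)) → p.Prime → (p : C) ^ k = 0 →
  (∃ g : Fin r → C, AddSubgroup.closure (Set.range g) = ⊤) → (∃ ψ : H →* C, Function.Injective ψ) →
    Nat.card H ≤ b

/-- The final statement with `e` in place of 3. -/
def SFinE : Prop := ∀ d m e : ℕ, 2 ≤ e → ∃ N : ℕ, ∀ (G B : Type) [Group G] [Finite G] [Ring B]
  (φ : G →* B) (s : Fin d → G), IsPGroup 2 G → (∀ x : G, IsConj x (x ^ e)) →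
  Subgroup.closure (Set.range s) = ⊤ → Function.Injective φ → Iden m φ → Nat.card G ≤ N

end Pool.Agent.H30.PI
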